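import Mathlib

/-!
The abstract construction of covers with respect to the class of modules with a lifting property.
-/

set_option autoImplicit false

open Cardinal

universe u

namespace Pool.Agent.Lib.MP_65eb6b_al

theorem exists_factor {R : Type u} [Ring R] {P N Q : Type u} [AddCommGroup P] [Module R P]
    [AddCommGroup N] [Module R N] [AddCommGroup Q] [Module R Q] (p : P →ₗ[R] N)
    (hp : Function.Surjective p) (χ : P →ₗ[R] Q) (h : ∀ x, p x = 0 → χ x = 0) :
    ∃ φ : N →ₗ[R] Q, φ ∘ₗ p = χ := by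
  have hle : LinearMap.ker p ≤ LinearMap.ker χ := fun x hx => h x hx
  refine ⟨(LinearMap.ker p).liftQ χ hle ∘ₗ (p.quotKerEquivOfSurjective hp).symm.toLinearMap, ?_⟩
  ext x
  have : (p.quotKerEquivOfSurjective hp).symm (p x) = Submodule.Quotient.mk x := by
    rw [LinearEquiv.symm_apply_eq]
    rfl
  simp [this]

section Abstract

variable {R : Type u} [Ring R] {k : Type} [Field k]
  {K Y M : Type u} [AddCommGroup K] [Module R K] [Module k K]
  [AddCommGroup Y] [Module R Y] [Module k Y] [SMulCommClass R k Y]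
  [AddCommGroup M] [Module R M] [Module k M] [SMulCommClass R k M]

/-- Every map from `A` to `M` lifts along `f`. -/
def Lifts (f : Y →ₗ[R] M) (A : Type u) [AddCommGroup A] [Module R A] : Prop :=
  ∀ φ : A →ₗ[R] M, ∃ ψ : A →ₗ[R] Y, f ∘ₗ ψ = φ

/-- The pullback of a power of `f` along a family of maps. -/
def pull (f : Y →ₗ[R] M) {N B : Type u} [AddCommGroup N] [Module R N] (φ : B → N →ₗ[R] M) :
    Submodule R (N × (B → Y)) where
  carrier := {z | ∀ b, f (z.2 b) = φ b z.1}
  add_mem' := by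
    intro z w hz hw b
    simp [hz b, hw b]
  zero_mem' := by
    intro b
    simp
  smul_mem' := by
    intro r z hz b
    simp [hz b]

theorem exists_cover (ι : K →ₗ[R] Y) (f : Y →ₗ[R] M) (hι : Function.Injective ι)
    (hf : Function.Surjective f) (hex : ∀ y, f y = 0 ↔ ∃ x, ι x = y)
    (hιk : ∀ (c : k) x, ι (c • x) = c • ι x) (hfk : ∀ (c : k) y, f (c • y) = c • f y)
    (N : Type u) [AddCommGroup N] [Module R N]
    (hc : ∀ (B : Type u) (χ : (B → K) →ₗ[R] M), χ = 0)
    (hd : ∀ (B : Type u) (e : B → N →ₗ[R] M), Function.Injective e →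
      ∀ β : (B → K) →ₗ[R] K, ∃ (S : Finset B) (c : B → k), ∀ x, β x = ∑ b ∈ S, c b • x b) :
    ∃ (B : Type u) (φ : B → N →ₗ[R] M), Function.Injective φ ∧
      Lifts f (pull f φ) ∧
      (∀ (A : Type u) [AddCommGroup A] [Module R A], Lifts f A → ∀ a : A →ₗ[R] N,
        ∃ h : A →ₗ[R] pull f φ, (LinearMap.fst R N (B → Y) ∘ₗ (pull f φ).subtype) ∘ₗ h = a) ∧
      (∀ e : pull f φ →ₗ[R] pull f φ,
        (LinearMap.fst R N (B → Y) ∘ₗ (pull f φ).subtype) ∘ₗ e =
          LinearMap.fst R N (B → Y) ∘ₗ (pull f φ).subtype →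
        ∃ e' : pull f φ →ₗ[R] pull f φ, e' ∘ₗ e = LinearMap.id ∧ e ∘ₗ e' = LinearMap.id) := by
  classical
  -- the liftable maps
  let Φ₀ : Submodule k (N →ₗ[R] M) :=
    { carrier := {φ | ∃ ψ : N →ₗ[R] Y, f ∘ₗ ψ = φ}
      add_mem' := by
        rintro _ _ ⟨ψ, rfl⟩ ⟨ψ', rfl⟩
        exact ⟨ψ + ψ', by ext x; simp⟩
      zero_mem' := ⟨0, by ext x; simp⟩
      smul_mem' := by
        rintro c _ ⟨ψ, rfl⟩
        exact ⟨c • ψ, by ext x; simp [hfk]⟩ }
  have hΦ₀ : ∀ φ, φ ∈ Φ₀ ↔ ∃ ψ : N →ₗ[R] Y, f ∘ₗ ψ = φ := fun φ => Iff.rfl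
  obtain ⟨Ψ, hΨ⟩ := Submodule.exists_isCompl Φ₀
  let bas := Module.Basis.ofVectorSpace k Ψ
  let B : Type u := Module.Basis.ofVectorSpaceIndex k Ψ
  let φ : B → N →ₗ[R] M := fun b => (bas b : N →ₗ[R] M)
  have hφinj : Function.Injective φ := fun b b' h => bas.injective (Subtype.ext h)
  let P := pull f φ
  let p : P →ₗ[R] N := LinearMap.fst R N (B → Y) ∘ₗ P.subtype
  let π : B → P →ₗ[R] Y := fun b =>
    LinearMap.proj b ∘ₗ LinearMap.snd R N (B → Y) ∘ₗ P.subtype
  have hπ : ∀ b z, f (π b z) = φ b (p z) := fun b z => z.2 b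
  have hpsurj : Function.Surjective p := by
    intro n
    choose y hy using fun b => hf (φ b n)
    exact ⟨⟨(n, y), hy⟩, rfl⟩
  let κ : (B → K) →ₗ[R] P :=
    LinearMap.codRestrict P
      (LinearMap.prod 0 (LinearMap.pi fun b => ι ∘ₗ LinearMap.proj b)) (by
        intro x b
        have : f (ι (x b)) = 0 := (hex _).2 ⟨_, rfl⟩
        simpa using this)
  have hpκ : ∀ x, p (κ x) = 0 := fun x => rfl
  have hπκ : ∀ b x, π b (κ x) = ι (x b) := fun b x => rfl
  have hext : ∀ z w : P, p z = p w → (∀ b, π b z = π b w) → z = w := by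
    intro z w h1 h2
    apply Subtype.ext
    exact Prod.ext h1 (funext h2)
  have hker : ∀ z : P, p z = 0 → ∃ x, κ x = z := by
    intro z hz
    have : ∀ b, ∃ x, ι x = π b z := fun b => (hex _).1 (by rw [hπ, hz, map_zero])
    choose x hx using this
    exact ⟨x, hext _ _ (by rw [hpκ, hz]) (fun b => by rw [hπκ, hx])⟩
  refine ⟨B, φ, hφinj, ?_, ?_, ?_⟩
  · -- the pullback has the lifting property
    intro χ
    have h0 : ∀ z, p z = 0 → χ z = 0 := by
      intro z hz
      obtain ⟨x, rfl⟩ := hker z hz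
      exact LinearMap.congr_fun (hc B (χ ∘ₗ κ)) x
    obtain ⟨θ, hθ⟩ := exists_factor p hpsurj χ h0
    have hmem : θ ∈ Φ₀ ⊔ Ψ := by rw [hΨ.sup_eq_top]; trivial
    obtain ⟨θ₀, hθ₀, θ₁, hθ₁, hsum⟩ := Submodule.mem_sup.1 hmem
    obtain ⟨ρ, hρ⟩ := (hΦ₀ θ₀).1 hθ₀
    let v := bas.repr ⟨θ₁, hθ₁⟩
    have hv : θ₁ = ∑ b ∈ v.support, v b • φ b := by
      have := bas.linearCombination_repr ⟨θ₁, hθ₁⟩
      rw [Finsupp.linearCombination_apply, Finsupp.sum] at this
      have h2 := congrArg (fun t : Ψ => (t : N →ₗ[R] M)) this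
      simp only [Submodule.coe_sum, Submodule.coe_smul] at h2
      exact h2.symm
    refine ⟨ρ ∘ₗ p + ∑ b ∈ v.support, v b • π b, ?_⟩
    rw [← hθ, ← hsum, ← hρ, hv]
    apply LinearMap.ext
    intro z
    simp [map_sum, hfk, hπ]
  · -- precover
    intro A _ _ hA a
    choose ψ hψ using fun b => hA (φ b ∘ₗ a)
    refine ⟨LinearMap.codRestrict P (LinearMap.prod a (LinearMap.pi ψ)) ?_, ?_⟩
    · intro x b
      exact LinearMap.congr_fun (hψ b) x
    · rfl
  · -- minimality
    intro e he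
    have he' : ∀ z, p (e z) = p z := fun z => LinearMap.congr_fun he z
    let g : P →ₗ[R] P := e - LinearMap.id
    have hg : ∀ z, p (g z) = 0 := by
      intro z
      simp [g, he']
    have hgκ : ∀ x, g (κ x) = 0 := by
      intro x
      refine hext _ _ (by rw [hg, map_zero]) fun b => ?_
      have hmem : ∀ z, (π b ∘ₗ g) z ∈ LinearMap.range ι := by
        intro z
        exact (hex _).1 (by rw [LinearMap.comp_apply, hπ, hg, map_zero])
      let gb : P →ₗ[R] K := (LinearEquiv.ofInjective ι hι).symm.toLinearMap ∘ₗ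
        LinearMap.codRestrict (LinearMap.range ι) (π b ∘ₗ g) hmem
      have hgb : ∀ z, ι (gb z) = π b (g z) := by
        intro z
        obtain ⟨w, hw⟩ := hmem z
        have : gb z = w := by
          simp only [gb, LinearMap.comp_apply, LinearEquiv.coe_coe]
          rw [LinearEquiv.symm_apply_eq]
          exact Subtype.ext hw.symm
        rw [this, hw]
        rfl
      obtain ⟨S, c, hS⟩ := hd B φ hφinj (gb ∘ₗ κ)
      let ρ : P →ₗ[R] Y := ∑ b' ∈ S, c b' • π b' - ι ∘ₗ gb
      have hρ0 : ∀ z, p z = 0 → ρ z = 0 := by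
        intro z hz
        obtain ⟨x', rfl⟩ := hker z hz
        have := hS x'
        rw [LinearMap.comp_apply] at this
        simp [ρ, this, map_sum, hιk, hπκ]
      obtain ⟨ρ', hρ'⟩ := exists_factor p hpsurj ρ hρ0
      have hlift : (∑ b' ∈ S, c b' • φ b') ∈ Φ₀ := by
        refine ⟨ρ', ?_⟩
        apply LinearMap.ext
        intro n
        obtain ⟨z, rfl⟩ := hpsurj n
        have h1 : ρ' (p z) = ρ z := LinearMap.congr_fun hρ' z
        have h2 : f (ι (gb z)) = 0 := (hex _).2 ⟨_, rfl⟩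
        rw [LinearMap.comp_apply, h1]
        simp [ρ, map_sum, hfk, hπ, h2]
      have hinΨ : (∑ b' ∈ S, c b' • φ b') ∈ Ψ :=
        Ψ.sum_mem fun b' _ => Ψ.smul_mem _ (bas b').2
      have hzero : (∑ b' ∈ S, c b' • φ b') = 0 := by
        have := hΨ.disjoint
        rw [Submodule.disjoint_def] at this
        exact this _ hlift hinΨ
      have hzero' : (∑ b' ∈ S, c b' • bas b') = 0 := by
        apply Subtype.ext
        simp only [Submodule.coe_sum, Submodule.coe_smul]
        exact hzero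
      have hc0 := linearIndependent_iff'.1 bas.linearIndependent S c hzero'
      have h3 : gb (κ x) = 0 := by
        have := hS x
        rw [LinearMap.comp_apply] at this
        rw [this]
        exact Finset.sum_eq_zero fun b' hb' => by rw [hc0 b' hb', zero_smul]
      rw [← hgb, h3, map_zero, map_zero]
    have hgg : ∀ z, g (g z) = 0 := by
      intro z
      obtain ⟨x, hx⟩ := hker _ (hg z)
      rw [← hx, hgκ]
    have hez : ∀ z, e z = z + g z := by
      intro z
      simp [g]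
    refine ⟨LinearMap.id - g, ?_, ?_⟩
    · apply LinearMap.ext
      intro z
      simp only [LinearMap.comp_apply, LinearMap.sub_apply, LinearMap.id_apply]
      rw [hez, map_add, hgg]
      abel
    · apply LinearMap.ext
      intro z
      simp only [LinearMap.comp_apply, LinearMap.sub_apply, LinearMap.id_apply]
      rw [hez, map_sub, hgg]
      abel

end Abstract

end Pool.Agent.Lib.MP_65eb6b_al
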