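import Mathlib

/-!
Modules over a free algebra given by families of operators.
-/

set_option autoImplicit false

universe u

namespace Pool.Agent.Lib.MP_65eb6b_al

variable {k : Type} [Field k] {σ : Type u}

/-- The module over the free algebra given by a family of operators. -/
def Rep {W : Type u} [AddCommGroup W] [Module k W] (_op : σ → Module.End k W) : Type u := W

section

variable {W : Type u} [AddCommGroup W] [Module k W] (op : σ → Module.End k W)

instance instAddCommGroupRep : AddCommGroup (Rep op) := inferInstanceAs (AddCommGroup W)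

instance instModuleRep : Module k (Rep op) := inferInstanceAs (Module k W)

noncomputable instance instModuleFreeRep : Module (FreeAlgebra k σ) (Rep op) :=
  Module.compHom W (FreeAlgebra.lift k op).toRingHom

/-- The identity map from the underlying space. -/
def Rep.of : W ≃ₗ[k] Rep op := LinearEquiv.refl k W

theorem Rep.smul_def (r : FreeAlgebra k σ) (w : W) :
    r • Rep.of op w = Rep.of op (FreeAlgebra.lift k op r w) := rfl

theorem Rep.gen_smul (g : σ) (w : W) :
    FreeAlgebra.ι k g • Rep.of op w = Rep.of op (op g w) := by
  rw [Rep.smul_def, FreeAlgebra.lift_ι_apply]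

theorem Rep.algebraMap_smul (c : k) (w : Rep op) :
    algebraMap k (FreeAlgebra k σ) c • w = c • w := by
  obtain ⟨w, rfl⟩ := (Rep.of op).surjective w
  rw [Rep.smul_def, AlgHom.commutes, ← map_smul]
  rfl

instance instSMulCommClassRep : SMulCommClass (FreeAlgebra k σ) k (Rep op) where
  smul_comm r c w := by
    obtain ⟨w, rfl⟩ := (Rep.of op).surjective w
    rw [← map_smul, Rep.smul_def, Rep.smul_def, map_smul, map_smul]

variable {W' : Type u} [AddCommGroup W'] [Module k W'] (op' : σ → Module.End k W')

theorem lift_comm (h : W →ₗ[k] W') (hh : ∀ g w, h (op g w) = op' g (h w))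
    (r : FreeAlgebra k σ) : ∀ w, h (FreeAlgebra.lift k op r w) = FreeAlgebra.lift k op' r (h w) := by
  induction r using FreeAlgebra.induction with
  | grade0 c => intro w; simp [Module.algebraMap_end_apply]
  | grade1 g => intro w; simp [hh]
  | mul a b ha hb => intro w; simp [ha, hb]
  | add a b ha hb => intro w; simp [ha, hb]

/-- A linear map commuting with the operators is a module map. -/
noncomputable def Rep.hom (h : W →ₗ[k] W') (hh : ∀ g w, h (op g w) = op' g (h w)) :
    Rep op →ₗ[FreeAlgebra k σ] Rep op' where
  toFun w := Rep.of op' (h ((Rep.of op).symm w))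
  map_add' a b := by simp
  map_smul' r w := by
    obtain ⟨w, rfl⟩ := (Rep.of op).surjective w
    rw [Rep.smul_def]
    simp only [LinearEquiv.symm_apply_apply, RingHom.id_apply]
    rw [Rep.smul_def, lift_comm op op' h hh]

theorem Rep.hom_apply (h : W →ₗ[k] W') (hh : ∀ g w, h (op g w) = op' g (h w)) (w : W) :
    Rep.hom op op' h hh (Rep.of op w) = Rep.of op' (h w) := rfl

end

end Pool.Agent.Lib.MP_65eb6b_al
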