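import Mathlib

/-!
Definitions for the results on Enochs' conjecture.
-/

set_option autoImplicit false

open CategoryTheory Cardinal

universe u

namespace Pool.Agent.Lib.MP_65eb6b_al

/-- A cardinal `κ` is measurable: it is uncountable and some set of size `κ` carries a
`κ`-complete non-principal ultrafilter. -/
def IsMeasurable (κ : Cardinal.{u}) : Prop :=
  ℵ₀ < κ ∧ ∃ (D : Type u) (U : Ultrafilter D), #D = κ ∧
    CardinalInterFilter (U : Filter D) κ ∧ ∀ d : D, U ≠ pure d

/-- `f : X ⟶ M` is a `C`-cover of `M`: `X` lies in `C`, every map to `M` from a module in `C`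
factors through `f`, and every endomorphism `e` of `X` with `f ∘ e = f` is an automorphism. -/
def IsCover {R : Type u} [Ring R] (C : ModuleCat.{u} R → Prop) {X M : ModuleCat.{u} R}
    (f : X ⟶ M) : Prop :=
  C X ∧ (∀ (Y : ModuleCat.{u} R) (g : Y ⟶ M), C Y → ∃ h : Y ⟶ X, h ≫ f = g) ∧
    (∀ e : X ⟶ X, e ≫ f = f → IsIso e)

end Pool.Agent.Lib.MP_65eb6b_al
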