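import Mathlib
import Pool.Agent.Lib.MP_65eb6b_al.Defs

/-!
Ultrafilter lemmas: a Los-type description of very additive functionals.
-/

set_option autoImplicit false

open Cardinal Set

universe u

namespace Pool.Agent.Lib.MP_65eb6b_al

/-- An ultrafilter closed under intersections indexed by `A`. -/
def ClosedUnderInter {B : Type u} (U : Ultrafilter B) (A : Type u) : Prop :=
  ∀ s : A → Set B, (∀ j, s j ∈ U) → (⋂ j, s j) ∈ U

theorem principal_of_no_measurable {A B N : Type u} [Infinite A] (e : B → N → Prop)
    (he : Function.Injective e)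
    (hno : ¬ ∃ κ : Cardinal.{u}, IsMeasurable κ ∧ #A < κ ∧ κ ≤ #N)
    (U : Ultrafilter B) (hU : ClosedUnderInter U A) : ∃ b, U = pure b := by
  classical
  by_contra hnp
  push Not at hnp
  -- the set of sizes of families witnessing incompleteness
  let W : Set Cardinal.{u} :=
    {c | ∃ (D : Type u) (s : D → Set B), #D = c ∧ (∀ j, s j ∈ U) ∧ (⋂ j, s j) ∉ U}
  have hN : #N ∈ W := by
    refine ⟨N, fun n => if {b | e b n} ∈ U then {b | e b n} else {b | e b n}ᶜ, rfl, ?_, ?_⟩
    · intro n
      by_cases h : {b | e b n} ∈ U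
      · simp [h]
      · simp only [h, if_false]
        exact Ultrafilter.compl_mem_iff_notMem.2 h
    · intro hmem
      obtain ⟨b, hb⟩ := Ultrafilter.nonempty_of_mem hmem
      apply hnp b
      have hsub : (⋂ n, if {b | e b n} ∈ U then {b | e b n} else {b | e b n}ᶜ) ⊆ {b} := by
        intro b' hb'
        rw [mem_singleton_iff]
        apply he
        funext n
        have h1 := mem_iInter.1 hb n
        have h2 := mem_iInter.1 hb' n
        by_cases h : {b | e b n} ∈ U
        · simp only [h, if_true] at h1 h2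
          exact propext ⟨fun _ => h1, fun _ => h2⟩
        · simp only [h, if_false] at h1 h2
          exact propext ⟨fun h' => absurd h' h2, fun h' => absurd h' h1⟩
      have hsing : ({b} : Set B) ∈ U := Filter.mem_of_superset hmem hsub
      exact Ultrafilter.eq_pure_of_finite_mem (finite_singleton b) hsing |>.elim
        fun x hx => by
          have hxb : x = b := hx.1
          rw [← hxb]; exact hx.2
  have hWne : W.Nonempty := ⟨_, hN⟩
  set κ := sInf W with hκ
  have hκW : κ ∈ W := csInf_mem hWne
  have hκle : ∀ c ∈ W, κ ≤ c := fun c hc => csInf_le' hc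
  have hcomp : CardinalInterFilter (U : Filter B) κ := by
    refine ⟨fun S hS hmem => ?_⟩
    by_contra hnot
    have : #S ∈ W := by
      refine ⟨S, fun s => s.1, rfl, fun s => hmem s.1 s.2, ?_⟩
      rw [← sInter_eq_iInter]
      exact hnot
    exact absurd (hκle _ this) (not_le.2 hS)
  obtain ⟨D, s, hD, hs, hns⟩ := hκW
  have hAκ : #A < κ := by
    by_contra hle
    push Not at hle
    rw [← hD] at hle
    obtain ⟨i⟩ := (Cardinal.le_def D A).1 hle
    apply hns
    have hDne : Nonempty D := by
      by_contra hemp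
      rw [not_nonempty_iff] at hemp
      apply hns
      rw [iInter_of_empty]
      exact Filter.univ_mem
    have h1 := hU (fun a => s (Function.invFun i a)) (fun a => hs _)
    refine Filter.mem_of_superset h1 ?_
    intro b hb
    rw [mem_iInter] at hb ⊢
    intro d
    have := hb (i d)
    rwa [Function.leftInverse_invFun i.injective d] at this
  have hDne : Nonempty D := by
    by_contra hemp
    rw [not_nonempty_iff] at hemp
    apply hns
    rw [iInter_of_empty]
    exact Filter.univ_mem
  apply hno
  refine ⟨κ, ⟨lt_of_le_of_lt (Cardinal.aleph0_le_mk A) hAκ, D, ?_⟩, hAκ, hκle _ hN⟩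
  have hch : ∀ b : B, ∃ d : D, b ∉ (⋂ j, s j) → b ∉ s d := by
    intro b
    by_cases hb : b ∈ ⋂ j, s j
    · exact ⟨Classical.arbitrary D, fun h => absurd hb h⟩
    · rw [mem_iInter] at hb
      push Not at hb
      obtain ⟨d, hd⟩ := hb
      exact ⟨d, fun _ => hd⟩
  choose g hg using hch
  refine ⟨U.map g, hD, ?_, ?_⟩
  · have := hcomp
    rw [Ultrafilter.coe_map]
    infer_instance
  · intro d hd
    have h1 : ({d} : Set D) ∈ U.map g := by rw [hd]; simp
    rw [Ultrafilter.mem_map] at h1
    have h2 : (⋂ j, s j)ᶜ ∈ U := Ultrafilter.compl_mem_iff_notMem.2 hns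
    have h3 := Filter.inter_mem (Filter.inter_mem h1 h2) (hs d)
    obtain ⟨b, ⟨hb1, hb2⟩, hb3⟩ := Ultrafilter.nonempty_of_mem h3
    have hgb : g b = d := hb1
    exact hg b hb2 (hgb ▸ hb3)

section Functional

variable {A B : Type u} {k : Type*} [AddCommGroup k] (l : (B → k) →+ k)

/-- `T` is null for the functional `l`. -/
def Null (T : Set B) : Prop := ∀ x : B → k, l (T.indicator x) = 0

variable {l}

theorem Null.mono {T T' : Set B} (h : Null l T) (hT : T' ⊆ T) : Null l T' := by
  intro x
  have := h (T'.indicator x)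
  rwa [indicator_indicator, inter_eq_right.2 hT] at this

theorem null_empty : Null l (∅ : Set B) := by
  intro x
  rw [indicator_empty']
  exact map_zero l

theorem Null.union {T T' : Set B} (h : Null l T) (h' : Null l T') : Null l (T ∪ T') := by
  intro x
  have e1 : (T ∪ T').indicator x = T.indicator x + (T' \ T).indicator x := by
    funext b
    by_cases h1 : b ∈ T <;> by_cases h2 : b ∈ T' <;> simp [h1, h2]
  rw [e1, map_add, h x, (h'.mono sdiff_subset) x, add_zero]

/-- The additivity property: pieces of a vector along a partition indexed by `A`. -/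
def VeryAdditive (l : (B → k) →+ k) (A : Type u) : Prop :=
  ∀ (x : B → k) (g : B → A),
    {j | l ((g ⁻¹' {j}).indicator x) ≠ 0}.Finite ∧
      ((∀ j, l ((g ⁻¹' {j}).indicator x) = 0) → l x = 0)

theorem Null.iUnion [Nonempty A] (hl : VeryAdditive l A) {T : A → Set B}
    (hT : ∀ j, Null l (T j)) : Null l (⋃ j, T j) := by
  intro x
  have hch : ∀ b : B, ∃ j : A, b ∈ (⋃ j, T j) → b ∈ T j := by
    intro b
    by_cases hb : b ∈ ⋃ j, T j
    · obtain ⟨j, hj⟩ := mem_iUnion.1 hb
      exact ⟨j, fun _ => hj⟩
    · exact ⟨Classical.arbitrary A, fun h => absurd h hb⟩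
  choose g hg using hch
  apply (hl _ g).2
  intro j
  rw [indicator_indicator]
  refine ((hT j).mono ?_) x
  rintro b ⟨hb1, hb2⟩
  have : g b = j := hb1
  exact this ▸ hg b hb2

theorem no_disjoint_seq [Infinite A] (hl : VeryAdditive l A) (T : ℕ → Set B)
    (hd : Pairwise fun m n => Disjoint (T m) (T n)) (hT : ∀ n, ¬ Null l (T n)) : False := by
  classical
  simp only [Null, not_forall] at hT
  choose x hx using hT
  let e : ℕ ↪ A := Infinite.natEmbedding A
  have hch : ∀ b : B, ∃ n : ℕ, ∀ m, b ∈ T m → n = m := by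
    intro b
    by_cases hb : ∃ m, b ∈ T m
    · obtain ⟨m, hm⟩ := hb
      refine ⟨m, fun m' hm' => ?_⟩
      by_contra hne
      exact disjoint_left.1 (hd hne) hm hm'
    · exact ⟨0, fun m hm => absurd ⟨m, hm⟩ hb⟩
  choose r hr using hch
  let y : B → k := fun b => (T (r b)).indicator (x (r b)) b
  have hfin := (hl y (fun b => e (r b))).1
  refine infinite_range_of_injective e.injective (hfin.subset ?_)
  rintro _ ⟨n, rfl⟩
  have key : ((fun b => e (r b)) ⁻¹' {e n}).indicator y = (T n).indicator (x n) := by
    funext b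
    by_cases h1 : r b = n
    · have : b ∈ (fun b => e (r b)) ⁻¹' {e n} := by simp [h1]
      rw [indicator_of_mem this]
      simp only [y, h1]
    · have : b ∉ (fun b => e (r b)) ⁻¹' {e n} := by simpa using h1
      rw [indicator_of_notMem this, indicator_of_notMem]
      exact fun h => h1 (hr b n h)
  simp only [mem_ofPred_eq, key]
  exact hx n

theorem exists_atom [Infinite A] (hl : VeryAdditive l A) {T₀ : Set B} (h₀ : ¬ Null l T₀) :
    ∃ T ⊆ T₀, ¬ Null l T ∧ ∀ S, Null l (T ∩ S) ∨ Null l (T \ S) := by
  by_contra hcon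
  push Not at hcon
  let P := {T : Set B // T ⊆ T₀ ∧ ¬ Null l T}
  have step : ∀ T : P, ∃ T' : P, T'.1 ⊆ T.1 ∧ ¬ Null l (T.1 \ T'.1) := by
    intro T
    obtain ⟨S, h1, h2⟩ := hcon T.1 T.2.1 T.2.2
    refine ⟨⟨T.1 ∩ S, inter_subset_left.trans T.2.1, h1⟩, inter_subset_left, ?_⟩
    simpa using h2
  choose nx hnx1 hnx2 using step
  let seq : ℕ → P := fun n => nx^[n] ⟨T₀, subset_rfl, h₀⟩
  have hsucc : ∀ n, seq (n + 1) = nx (seq n) := fun n => Function.iterate_succ_apply' _ _ _
  have hanti : Antitone fun n => (seq n).1 := by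
    apply antitone_nat_of_succ_le
    intro n
    rw [hsucc]
    exact hnx1 _
  refine no_disjoint_seq hl (fun n => (seq n).1 \ (seq (n + 1)).1) ?_ ?_
  · have : ∀ m n, m < n → Disjoint ((seq m).1 \ (seq (m + 1)).1) ((seq n).1 \ (seq (n + 1)).1) := by
      intro m n hmn
      rw [disjoint_left]
      intro b hb1 hb2
      exact hb1.2 (hanti (Nat.succ_le_of_lt hmn) hb2.1)
    intro m n hmn
    rcases lt_or_gt_of_ne hmn with h | h
    · exact this m n h
    · exact (this n m h).symm
  · intro n
    rw [hsucc]
    exact hnx2 _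

theorem exists_finset_null [Infinite A] (hl : VeryAdditive l A)
    (hU : ∀ U : Ultrafilter B, ClosedUnderInter U A → ∃ b, U = pure b) :
    ∃ S : Finset B, Null l (↑S : Set B)ᶜ := by
  have hfin : {b | ¬ Null l {b}}.Finite := by
    by_contra hinf
    have hinf' : {b | ¬ Null l {b}}.Infinite := hinf
    let e := hinf'.natEmbedding
    refine no_disjoint_seq hl (fun n => {(e n).1}) ?_ (fun n => (e n).2)
    intro m n hmn
    rw [disjoint_singleton]
    exact fun h => hmn (e.injective (Subtype.ext h))
  refine ⟨hfin.toFinset, ?_⟩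
  by_contra hcon
  obtain ⟨T, hT, hTn, hat⟩ := exists_atom hl hcon
  let F : Filter B :=
    { sets := {S | Null l (T \ S)}
      univ_sets := by
        show Null l (T \ univ)
        rw [sdiff_univ]
        exact null_empty
      sets_of_superset := fun {S S'} hS hSS' => hS.mono (sdiff_subset_sdiff_right hSS')
      inter_sets := fun {S S'} hS hS' => by
        have := Null.union hS hS'
        refine this.mono ?_
        rw [Set.sdiff_inter] }
  have hF : ∀ S, S ∈ F ↔ Null l (T \ S) := fun S => Iff.rfl
  let U : Ultrafilter B := Ultrafilter.ofComplNotMemIff F (by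
    intro S
    rw [hF, hF, Set.sdiff_compl]
    constructor
    · intro h
      exact (hat S).resolve_left h
    · intro h h'
      apply hTn
      have := Null.union h' h
      rwa [inter_union_sdiff] at this)
  have hUm : ∀ S, S ∈ U ↔ Null l (T \ S) := fun S => Iff.rfl
  obtain ⟨b, hb⟩ := hU U (by
    intro s hs
    rw [hUm, Set.sdiff_iInter]
    exact Null.iUnion hl fun j => (hUm _).1 (hs j))
  have h1 : T ∈ U := by
    rw [hUm, sdiff_self]; exact null_empty
  have hbT : b ∈ T := by rw [hb] at h1; simpa using h1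
  have h2 : ({b} : Set B) ∈ U := by rw [hb]; simp
  rw [hUm] at h2
  have h3 : Null l {b} := by
    have := hT hbT
    simpa using this
  apply hTn
  refine (Null.union h2 h3).mono ?_
  intro c hc
  by_cases hcb : c = b
  · right; exact hcb
  · left; exact ⟨hc, hcb⟩

theorem exists_finset_sum [DecidableEq B] [Infinite A] (hl : VeryAdditive l A)
    (hU : ∀ U : Ultrafilter B, ClosedUnderInter U A → ∃ b, U = pure b) :
    ∃ S : Finset B, ∀ x : B → k, l x = ∑ b ∈ S, l (Pi.single b (x b)) := by
  obtain ⟨S, hS⟩ := exists_finset_null hl hU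
  refine ⟨S, fun x => ?_⟩
  have e1 : x = ∑ b ∈ S, Pi.single b (x b) + (↑S : Set B)ᶜ.indicator x := by
    funext c
    by_cases hc : c ∈ S
    · simp [Finset.sum_apply, Pi.single_apply, hc]
    · simp [Finset.sum_apply, Pi.single_apply, hc]
  conv_lhs => rw [e1]
  rw [map_add, hS x, add_zero, map_sum]

end Functional

end Pool.Agent.Lib.MP_65eb6b_al
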