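import Mathlib
import Pool.Agent.Lib.MP_65eb6b_al.Ultra
import Pool.Agent.Lib.MP_65eb6b_al.Cover
import Pool.Agent.Lib.MP_65eb6b_al.Rep

/-!
The concrete modules `K`, `Y`, `M` over a free algebra over the field with two elements.
-/

set_option autoImplicit false

open Cardinal

universe u

namespace Pool.Agent.Lib.MP_65eb6b_al

/-- The field with two elements. -/
abbrev F2 : Type := ZMod 2

/-- Index set of the basis of `K`. -/
abbrev Bs (I : Type u) : Type u := I × Bool × ℕ

/-- Generators of the free algebra. -/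
abbrev Gen (I : Type u) : Type u := Bs I ⊕ Bool

/-- The ring. -/
abbrev Rg (I : Type u) : Type u := FreeAlgebra F2 (Gen I)

variable {I : Type u}

/-- The shift on the index set. -/
def sh (j : Bs I) : Bs I := (j.1, j.2.1, j.2.2 + 1)

theorem sh_inj : Function.Injective (sh : Bs I → Bs I) := by
  rintro ⟨a, b, c⟩ ⟨a', b', c'⟩ h
  simp only [sh, Prod.mk.injEq, Nat.add_right_cancel_iff] at h
  simp [h]

/-- Sum of the coefficients. -/
noncomputable def tot : (Bs I →₀ F2) →ₗ[F2] F2 :=
  Finsupp.linearCombination F2 (fun _ => (1 : F2))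

theorem tot_single (j : Bs I) (a : F2) : tot (Finsupp.single j a) = a := by
  simp [tot]

/-- Operators on `K`. -/
noncomputable def opK (o : Bs I) : Gen I → Module.End F2 (Bs I →₀ F2)
  | Sum.inl j => Finsupp.lsingle o ∘ₗ Finsupp.lapply j
  | Sum.inr false => Finsupp.lsingle o ∘ₗ tot
  | Sum.inr true => Finsupp.lcomapDomain sh sh_inj

/-- Values of the operators on the extra basis vector of `Y`. -/
noncomputable def vec (o : Bs I) : Gen I → (Bs I →₀ F2)
  | Sum.inl j => if j.2.2 = 0 then Finsupp.single o 1 else 0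
  | Sum.inr _ => 0

/-- Operators on `Y`. -/
noncomputable def opY (o : Bs I) (g : Gen I) : Module.End F2 ((Bs I →₀ F2) × F2) :=
  LinearMap.inl F2 _ _ ∘ₗ (opK o g ∘ₗ LinearMap.fst F2 _ _ +
    LinearMap.toSpanSingleton F2 _ (vec o g) ∘ₗ LinearMap.snd F2 _ _)

theorem opY_apply (o : Bs I) (g : Gen I) (v : Bs I →₀ F2) (a : F2) :
    opY o g (v, a) = (opK o g v + a • vec o g, 0) := by
  simp [opY]

/-- Operators on `M`: all zero. -/
noncomputable def opM (I : Type u) : Gen I → Module.End F2 (ULift.{u} F2) := fun _ => 0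

/-- The inclusion `K → Y`. -/
noncomputable def incl (o : Bs I) : Rep (opK o) →ₗ[Rg I] Rep (opY o) :=
  Rep.hom _ _ (LinearMap.inl F2 _ _) (by
    intro g w
    simp only [LinearMap.inl_apply]
    rw [opY_apply]
    simp)

/-- The projection `Y → M`. -/
noncomputable def proj (o : Bs I) : Rep (opY o) →ₗ[Rg I] Rep (opM I) :=
  Rep.hom _ _ (ULift.moduleEquiv.symm.toLinearMap ∘ₗ LinearMap.snd F2 _ _) (by
    rintro g ⟨v, a⟩
    rw [opY_apply]
    simp [opM]
    rfl)

theorem incl_apply (o : Bs I) (v : Bs I →₀ F2) :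
    incl o (Rep.of _ v) = Rep.of _ (v, 0) := rfl

theorem proj_apply (o : Bs I) (v : Bs I →₀ F2) (a : F2) :
    proj o (Rep.of _ (v, a)) = Rep.of _ (ULift.up a) := rfl

theorem incl_inj (o : Bs I) : Function.Injective (incl o) := by
  intro x y h
  obtain ⟨x, rfl⟩ := (Rep.of (opK o)).surjective x
  obtain ⟨y, rfl⟩ := (Rep.of (opK o)).surjective y
  rw [incl_apply, incl_apply] at h
  have := (Rep.of (opY o)).injective h
  rw [(Prod.mk.inj this).1]

theorem proj_surj (o : Bs I) : Function.Surjective (proj o) := by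
  intro m
  obtain ⟨⟨a⟩, rfl⟩ := (Rep.of (opM I)).surjective m
  exact ⟨Rep.of _ (0, a), rfl⟩

theorem proj_exact (o : Bs I) (y : Rep (opY o)) : proj o y = 0 ↔ ∃ x, incl o x = y := by
  obtain ⟨⟨v, a⟩, rfl⟩ := (Rep.of (opY o)).surjective y
  rw [proj_apply]
  constructor
  · intro h
    have h1 : (ULift.up a : ULift.{u} F2) = 0 := (Rep.of (opM I)).map_eq_zero_iff.1 h
    have h2 : a = 0 := congrArg ULift.down h1
    exact ⟨Rep.of _ v, by rw [incl_apply, h2]⟩
  · rintro ⟨x, hx⟩
    obtain ⟨x, rfl⟩ := (Rep.of (opK o)).surjective x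
    rw [incl_apply] at hx
    have := (Rep.of (opY o)).injective hx
    rw [← (Prod.mk.inj this).2]
    rfl

theorem incl_smul (o : Bs I) (c : F2) (x : Rep (opK o)) : incl o (c • x) = c • incl o x := by
  rw [← Rep.algebraMap_smul, map_smul, Rep.algebraMap_smul]

theorem proj_smul (o : Bs I) (c : F2) (x : Rep (opY o)) : proj o (c • x) = c • proj o x := by
  rw [← Rep.algebraMap_smul, map_smul, Rep.algebraMap_smul]

theorem gen_smul_M (g : Gen I) (m : Rep (opM I)) : FreeAlgebra.ι F2 g • m = 0 := by
  obtain ⟨m, rfl⟩ := (Rep.of (opM I)).surjective m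
  rw [Rep.gen_smul]
  simp [opM]

/-- There is no nonzero map from a power of `K` to `M`. -/
theorem hom_pow_M (o : Bs I) (B : Type u) (χ : (B → Rep (opK o)) →ₗ[Rg I] Rep (opM I)) :
    χ = 0 := by
  apply LinearMap.ext
  intro x
  have : x = (FreeAlgebra.ι F2 (Sum.inr true : Gen I) : Rg I) •
      fun b => Rep.of (opK o) (Finsupp.mapDomain sh ((Rep.of (opK o)).symm (x b))) := by
    funext b
    rw [Pi.smul_apply, Rep.gen_smul]
    simp only [opK]
    rw [Finsupp.leftInverse_lcomapDomain_mapDomain sh sh_inj]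
    simp
  rw [this, map_smul, gen_smul_M]
  rfl

section Pow

variable (o : Bs I) {B : Type u} (β : (B → Rep (opK o)) →ₗ[Rg I] Rep (opK o))

/-- The functional attached to a map from a power of `K` to `K`. -/
noncomputable def lam : (B → F2) →+ F2 where
  toFun x := (Rep.of (opK o)).symm (β fun b => Rep.of (opK o) (Finsupp.single o (x b))) o
  map_zero' := by
    have : (fun b : B => Rep.of (opK o) (Finsupp.single o ((0 : B → F2) b))) = 0 := by
      funext b; simp
    rw [this]; simp
  map_add' x y := by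
    have : (fun b : B => Rep.of (opK o) (Finsupp.single o ((x + y) b))) =
        (fun b : B => Rep.of (opK o) (Finsupp.single o (x b))) +
        (fun b : B => Rep.of (opK o) (Finsupp.single o (y b))) := by
      funext b; simp
    rw [this]; simp

theorem lam_apply (x : B → F2) : lam o β x =
    (Rep.of (opK o)).symm (β fun b => Rep.of (opK o) (Finsupp.single o (x b))) o := rfl

theorem coeff_eq (y : B → (Bs I →₀ F2)) (j : Bs I) :
    (Rep.of (opK o)).symm (β fun b => Rep.of (opK o) (y b)) j = lam o β fun b => y b j := by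
  have h1 : (fun b : B => Rep.of (opK o) (Finsupp.single o (y b j))) =
      (FreeAlgebra.ι F2 (Sum.inl j : Gen I) : Rg I) • fun b => Rep.of (opK o) (y b) := by
    funext b
    rw [Pi.smul_apply, Rep.gen_smul]
    simp [opK]
  rw [lam_apply, h1, map_smul]
  obtain ⟨w, hw⟩ := (Rep.of (opK o)).surjective (β fun b => Rep.of (opK o) (y b))
  rw [← hw, Rep.gen_smul]
  simp [opK]

theorem tot_eq (y : B → (Bs I →₀ F2)) :
    tot ((Rep.of (opK o)).symm (β fun b => Rep.of (opK o) (y b))) =
      lam o β fun b => tot (y b) := by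
  have h1 : (fun b : B => Rep.of (opK o) (Finsupp.single o (tot (y b)))) =
      (FreeAlgebra.ι F2 (Sum.inr false : Gen I) : Rg I) • fun b => Rep.of (opK o) (y b) := by
    funext b
    rw [Pi.smul_apply, Rep.gen_smul]
    simp [opK]
  rw [lam_apply, h1, map_smul]
  obtain ⟨w, hw⟩ := (Rep.of (opK o)).surjective (β fun b => Rep.of (opK o) (y b))
  rw [← hw, Rep.gen_smul]
  simp [opK]

theorem lam_veryAdditive : VeryAdditive (lam o β) (Bs I) := by
  classical
  intro x g
  let y : B → (Bs I →₀ F2) := fun b => Finsupp.single (g b) (x b)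
  let w := (Rep.of (opK o)).symm (β fun b => Rep.of (opK o) (y b))
  have hw : ∀ j, w j = lam o β ((g ⁻¹' {j}).indicator x) := by
    intro j
    rw [coeff_eq]
    congr 1
    funext b
    by_cases h : g b = j
    · have : b ∈ g ⁻¹' {j} := h
      rw [Set.indicator_of_mem this, ← h]
      simp [y]
    · have : b ∉ g ⁻¹' {j} := h
      rw [Set.indicator_of_notMem this]
      simp [y, h]
  have ht : tot w = lam o β x := by
    rw [tot_eq]
    congr 1
    funext b
    exact tot_single _ _
  constructor
  · refine w.support.finite_toSet.subset ?_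
    intro j hj
    rw [Finset.mem_coe, Finsupp.mem_support_iff, hw]
    exact hj
  · intro h
    have : w = 0 := by
      ext j
      rw [hw, h]
      rfl
    rw [← ht, this, map_zero]

theorem hom_pow_K [Infinite I]
    (hU : ∀ U : Ultrafilter B, ClosedUnderInter U (Bs I) → ∃ b, U = pure b) :
    ∃ (S : Finset B) (c : B → F2), ∀ x, β x = ∑ b ∈ S, c b • x b := by
  classical
  obtain ⟨S, hS⟩ := exists_finset_sum (lam_veryAdditive o β) hU
  refine ⟨S, fun b => lam o β (Pi.single b 1), fun x => ?_⟩
  have hx : x = fun b => Rep.of (opK o) ((Rep.of (opK o)).symm (x b)) := by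
    funext b; simp
  apply (Rep.of (opK o)).symm.injective
  ext j
  conv_lhs => rw [hx]
  rw [coeff_eq, hS, map_sum, Finsupp.finsetSum_apply]
  refine Finset.sum_congr rfl fun b _ => ?_
  rw [map_smul, Finsupp.smul_apply, smul_eq_mul]
  generalize (Rep.of (opK o)).symm (x b) j = a
  have ha : a = 0 ∨ a = 1 := by
    revert a
    decide
  rcases ha with rfl | rfl
  · simp
  · simp

end Pow

/-- The partial lifts of the generator of `M`. -/
noncomputable def part (F : Finset I) : Bs I →₀ F2 :=
  ∑ i ∈ F, (Finsupp.single (i, true, 0) 1 + Finsupp.single (i, false, 0) 1)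

theorem part_apply [DecidableEq I] (F : Finset I) (j : Bs I) :
    part F j = if j.1 ∈ F ∧ j.2.2 = 0 then 1 else 0 := by
  obtain ⟨i, b, n⟩ := j
  rw [part, Finsupp.finsetSum_apply]
  by_cases hi : i ∈ F
  · rw [Finset.sum_eq_single i]
    · cases b <;> cases n <;> simp [hi]
    · intro i' _ hne
      simp [hne]
    · intro h; exact absurd hi h
  · rw [Finset.sum_eq_zero]
    · simp [hi]
    · intro i' hi'
      have hne : i' ≠ i := fun h => hi (h ▸ hi')
      simp [hne]

theorem tot_part (F : Finset I) : tot (part F) = 0 := by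
  rw [part, map_sum]
  refine Finset.sum_eq_zero fun i _ => ?_
  rw [map_add, tot_single, tot_single]
  decide

theorem exists_partial_lift (o : Bs I) (F : Finset (Gen I)) :
    ∃ y : Rep (opY o), proj o y = Rep.of _ (ULift.up 1) ∧
      ∀ g ∈ F, (FreeAlgebra.ι F2 g : Rg I) • y = 0 := by
  classical
  let r : Gen I → I := Sum.elim (fun j => j.1) (fun _ => o.1)
  refine ⟨Rep.of _ (part (F.image r), 1), rfl, fun g hg => ?_⟩
  rw [Rep.gen_smul, opY_apply, LinearEquiv.map_eq_zero_iff, Prod.mk_eq_zero]
  refine ⟨?_, rfl⟩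
  rcases g with j | (_ | _)
  · have hj : j.1 ∈ F.image r := Finset.mem_image.2 ⟨_, hg, rfl⟩
    by_cases h0 : j.2.2 = 0
    · simp only [opK, vec, h0, if_true, LinearMap.comp_apply, Finsupp.lapply_apply,
        Finsupp.lsingle_apply, part_apply, hj, and_self, one_smul]
      rw [← Finsupp.single_add]
      have : (1 : F2) + 1 = 0 := by decide
      rw [this, Finsupp.single_zero]
    · simp [opK, vec, h0, part_apply]
  · simp [opK, vec, tot_part]
  · ext j
    simp [opK, vec, part_apply, sh]

theorem no_total_lift [Infinite I] (o : Bs I) (y : Rep (opY o))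
    (h1 : proj o y = Rep.of _ (ULift.up 1))
    (h2 : ∀ g, (FreeAlgebra.ι F2 g : Rg I) • y = 0) : False := by
  classical
  obtain ⟨⟨v, a⟩, rfl⟩ := (Rep.of (opY o)).surjective y
  rw [proj_apply] at h1
  have ha : a = 1 := congrArg ULift.down ((Rep.of (opM I)).injective h1)
  subst ha
  obtain ⟨i, hi⟩ := Infinite.exists_notMem_finset (v.support.image fun j => j.1)
  have hv : v (i, true, 0) = 0 := by
    by_contra hne
    exact hi (Finset.mem_image.2 ⟨_, Finsupp.mem_support_iff.2 hne, rfl⟩)
  have := h2 (Sum.inl (i, true, 0))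
  rw [Rep.gen_smul, opY_apply, LinearEquiv.map_eq_zero_iff, Prod.mk_eq_zero] at this
  have h3 := this.1
  simp [opK, vec, hv] at h3

end Pool.Agent.Lib.MP_65eb6b_al
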