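import Mathlib
import Pool.Agent.Lib.MP_65eb6b_al.Concrete

/-!
The covering class that is not closed under direct limits.
-/

set_option autoImplicit false

open Cardinal CategoryTheory

universe u

namespace Pool.Agent.Lib.MP_65eb6b_al

variable {I : Type u}

/-- The class of modules with the lifting property. -/
def Cls (o : Bs I) (A : ModuleCat.{u} (Rg I)) : Prop := Lifts (proj o) A

theorem cls_iso (o : Bs I) (X Y : ModuleCat.{u} (Rg I)) (h : Nonempty (X ≅ Y))
    (hX : Cls o X) : Cls o Y := by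
  obtain ⟨e⟩ := h
  intro φ
  obtain ⟨ψ, hψ⟩ := hX (φ ∘ₗ e.hom.hom)
  refine ⟨ψ ∘ₗ e.inv.hom, ?_⟩
  rw [← LinearMap.comp_assoc, hψ, LinearMap.comp_assoc, ← ModuleCat.hom_comp, e.inv_hom_id]
  rfl

theorem mk_Bs [Infinite I] : #(Bs I) = #I := by
  have h : ℵ₀ ≤ #I := aleph0_le_mk I
  have h2 : #(I × Bool × ℕ) = #I * ℵ₀ := by simp
  rw [h2]
  exact mul_eq_left h h aleph0_ne_zero

theorem mk_Gen [Infinite I] : #(Gen I) = #I := by
  have h : ℵ₀ ≤ #I := aleph0_le_mk I
  simp only [Gen, mk_sum, lift_uzero, mk_Bs, mk_fintype, Fintype.card_bool, Nat.cast_ofNat,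
    lift_ofNat]
  exact add_eq_left h ((Cardinal.ofNat_le_aleph0).trans h)

theorem mk_Rg [Infinite I] : #(Rg I) = #I := by
  have h : ℵ₀ ≤ #I := aleph0_le_mk I
  rw [FreeAlgebra.cardinalMk_eq_max_lift, mk_Gen]
  simp only [mk_fintype, ZMod.card, Nat.cast_ofNat, lift_ofNat, lift_uzero]
  rw [sup_eq_right.2 ((Cardinal.ofNat_le_aleph0).trans h), sup_eq_left.2 h]

theorem mk_Y [Infinite I] (o : Bs I) : #(Rep (opY o)) = #I := by
  have h : ℵ₀ ≤ #I := aleph0_le_mk I
  show #((Bs I →₀ F2) × F2) = #I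
  rw [mk_prod, mk_finsupp_lift_of_infinite, mk_Bs]
  simp only [mk_fintype, ZMod.card, Nat.cast_ofNat, lift_ofNat, lift_uzero]
  rw [max_eq_left ((Cardinal.ofNat_le_aleph0).trans h)]
  exact mul_eq_left h ((Cardinal.ofNat_le_aleph0).trans h) (by simp)

theorem exists_isCover [Infinite I] (o : Bs I) (N : ModuleCat.{u} (Rg I))
    (hno : ¬ ∃ κ : Cardinal.{u}, IsMeasurable κ ∧ #I < κ ∧ κ ≤ #N) :
    ∃ (X : ModuleCat.{u} (Rg I)) (f : X ⟶ N), IsCover (Cls o) f ∧ #X ≤ 2 ^ (#I * 2 ^ #N) := by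
  have hinj : ∀ (B : Type u) (e : B → N →ₗ[Rg I] Rep (opM I)), Function.Injective e →
      Function.Injective fun b n => e b n = 0 := by
    intro B e he b b' h
    apply he
    apply LinearMap.ext
    intro n
    have h1 : e b n = 0 ↔ e b' n = 0 := by
      have := congrFun h n
      exact this.to_iff
    obtain ⟨⟨x⟩, hx⟩ := (Rep.of (opM I)).surjective (e b n)
    obtain ⟨⟨y⟩, hy⟩ := (Rep.of (opM I)).surjective (e b' n)
    rw [← hx, ← hy] at h1 ⊢
    rw [LinearEquiv.map_eq_zero_iff, LinearEquiv.map_eq_zero_iff] at h1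
    have h2 : x = 0 ↔ y = 0 := by
      constructor
      · intro h3
        exact congrArg ULift.down (h1.1 (by rw [h3]; rfl))
      · intro h3
        exact congrArg ULift.down (h1.2 (by rw [h3]; rfl))
    have h3 : x = y := (by decide : ∀ x y : F2, (x = 0 ↔ y = 0) → x = y) x y h2
    rw [h3]
  obtain ⟨B, φ, hφ, h1, h2, h3⟩ := exists_cover (k := F2) (incl o) (proj o) (incl_inj o)
    (proj_surj o) (proj_exact o) (incl_smul o) (proj_smul o) N (hom_pow_M o) (by
      intro B e he β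
      refine hom_pow_K o β fun U hU => ?_
      refine principal_of_no_measurable (A := Bs I) (N := N) _ (hinj B e he) ?_ U hU
      rwa [mk_Bs])
  refine ⟨ModuleCat.of _ (pull (proj o) φ),
    ModuleCat.ofHom (LinearMap.fst _ _ _ ∘ₗ (pull (proj o) φ).subtype), ⟨h1, ?_, ?_⟩, ?_⟩
  · intro A a hA
    obtain ⟨h, hh⟩ := h2 A hA a.hom
    exact ⟨ModuleCat.ofHom h, ModuleCat.hom_ext hh⟩
  · intro e he
    obtain ⟨e', he1, he2⟩ := h3 e.hom (congrArg ModuleCat.Hom.hom he)
    exact ⟨ModuleCat.ofHom e', ModuleCat.hom_ext he1, ModuleCat.hom_ext he2⟩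
  · have h : ℵ₀ ≤ #I := aleph0_le_mk I
    have hB : #B ≤ 2 ^ #N := by
      have := mk_le_of_injective (hinj B φ hφ)
      simpa using this
    have hpos : (1 : Cardinal.{u}) ≤ 2 ^ #N := Cardinal.one_le_iff_ne_zero.2 (power_ne_zero _ two_ne_zero)
    have hθ : ℵ₀ ≤ #I * 2 ^ #N := h.trans (le_mul_of_one_le_right' hpos)
    have hθ2 : ℵ₀ ≤ 2 ^ (#I * 2 ^ #N) := hθ.trans (cantor _).le
    calc #(pull (proj o) φ) ≤ #(N × (B → Rep (opY o))) := mk_subtype_le _
      _ = #N * #I ^ #B := by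
        rw [mk_prod, lift_id, lift_id, ← power_def, mk_Y]
      _ ≤ 2 ^ (#I * 2 ^ #N) * 2 ^ (#I * 2 ^ #N) := by
        gcongr
        · refine (cantor _).le.trans ((le_mul_of_one_le_left' ?_).trans (cantor _).le)
          exact one_le_aleph0.trans h
        · calc #I ^ #B ≤ (2 ^ #I) ^ #B := power_le_power_right (cantor _).le
            _ ≤ (2 ^ #I) ^ (2 ^ #N) := power_le_power_left (power_ne_zero _ two_ne_zero) hB
            _ = 2 ^ (#I * 2 ^ #N) := (power_mul).symm
      _ = 2 ^ (#I * 2 ^ #N) := mul_eq_self hθ2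

/-- The left ideal generated by a set of generators. -/
def lid (F : Set (Gen I)) : Submodule (Rg I) (Rg I) :=
  Submodule.span (Rg I) (FreeAlgebra.ι F2 '' F)

theorem lid_mono {F G : Set (Gen I)} (h : F ⊆ G) : lid F ≤ lid G :=
  Submodule.span_mono (Set.image_mono h)

/-- The map out of a cyclic quotient determined by an element killed by the generators. -/
noncomputable def fromQuot (F : Set (Gen I)) {A : Type u} [AddCommGroup A] [Module (Rg I) A]
    (a : A) (ha : ∀ g ∈ F, (FreeAlgebra.ι F2 g : Rg I) • a = 0) :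
    (Rg I ⧸ lid F) →ₗ[Rg I] A :=
  (lid F).liftQ (LinearMap.toSpanSingleton (Rg I) A a) (by
    rw [lid, Submodule.span_le]
    rintro _ ⟨g, hg, rfl⟩
    exact ha g hg)

theorem fromQuot_one (F : Set (Gen I)) {A : Type u} [AddCommGroup A] [Module (Rg I) A]
    (a : A) (ha : ∀ g ∈ F, (FreeAlgebra.ι F2 g : Rg I) • a = 0) :
    fromQuot F a ha (Submodule.Quotient.mk 1) = a := by
  simp [fromQuot]

theorem quot_ext (F : Set (Gen I)) {A : Type u} [AddCommGroup A] [Module (Rg I) A]
    (φ ψ : (Rg I ⧸ lid F) →ₗ[Rg I] A)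
    (h : φ (Submodule.Quotient.mk 1) = ψ (Submodule.Quotient.mk 1)) : φ = ψ := by
  apply Submodule.linearMap_qext
  apply LinearMap.ext_ring
  exact h

theorem gen_smul_one (F : Set (Gen I)) (g : Gen I) (hg : g ∈ F) :
    (FreeAlgebra.ι F2 g : Rg I) • (Submodule.Quotient.mk 1 : Rg I ⧸ lid F) = 0 := by
  rw [← Submodule.Quotient.mk_smul, smul_eq_mul, mul_one, Submodule.Quotient.mk_eq_zero]
  exact Submodule.subset_span ⟨g, hg, rfl⟩

/-- The direct system of cyclic finitely presented modules. -/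
noncomputable def sys (I : Type u) : Finset (Gen I) ⥤ ModuleCat.{u} (Rg I) where
  obj F := ModuleCat.of _ (Rg I ⧸ lid (↑F : Set (Gen I)))
  map h := ModuleCat.ofHom (Submodule.factor (lid_mono (Finset.coe_subset.2 h.le)))
  map_id _ := ModuleCat.hom_ext (quot_ext _ _ _ rfl)
  map_comp _ _ := ModuleCat.hom_ext (quot_ext _ _ _ rfl)

/-- The cocone over the direct system. -/
noncomputable def cocone (I : Type u) : Limits.Cocone (sys I) where
  pt := ModuleCat.of _ (Rg I ⧸ lid (Set.univ : Set (Gen I)))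
  ι :=
    { app := fun _ => ModuleCat.ofHom (Submodule.factor (lid_mono (Set.subset_univ _)))
      naturality := fun _ _ _ => ModuleCat.hom_ext (quot_ext _ _ _ rfl) }

theorem cocone_val (s : Limits.Cocone (sys I)) (F : Finset (Gen I)) :
    (s.ι.app F).hom (Submodule.Quotient.mk 1) = (s.ι.app ∅).hom (Submodule.Quotient.mk 1) := by
  have h := s.w (homOfLE (Finset.empty_subset F) : (∅ : Finset (Gen I)) ⟶ F)
  rw [← h]
  rfl

theorem cocone_kill (s : Limits.Cocone (sys I)) : ∀ g ∈ (Set.univ : Set (Gen I)),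
    (FreeAlgebra.ι F2 g : Rg I) • (s.ι.app ∅).hom (Submodule.Quotient.mk 1) = 0 := by
  intro g _
  rw [← cocone_val s {g}]
  have h := gen_smul_one (↑({g} : Finset (Gen I))) g (by simp)
  exact ((s.ι.app {g}).hom.map_smul _ _).symm.trans
    ((congrArg (s.ι.app {g}).hom h).trans (map_zero _))

/-- The cocone is a colimit. -/
noncomputable def isColimit (I : Type u) : Limits.IsColimit (cocone I) where
  desc s := ModuleCat.ofHom
    (fromQuot Set.univ ((s.ι.app ∅).hom (Submodule.Quotient.mk 1)) (cocone_kill s))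
  fac s F := ModuleCat.hom_ext (quot_ext _ _ _ (by
    exact (fromQuot_one Set.univ _ (cocone_kill s)).trans (cocone_val s F).symm))
  uniq s m hm := ModuleCat.hom_ext (quot_ext _ _ _ (by
    refine Eq.trans ?_ (fromQuot_one Set.univ _ (cocone_kill s)).symm
    rw [← hm ∅]
    rfl))

theorem cls_sys (o : Bs I) (F : Finset (Gen I)) : Cls o ((sys I).obj F) := by
  intro φ
  obtain ⟨y, hy1, hy2⟩ := exists_partial_lift o F
  obtain ⟨⟨a⟩, ha⟩ := (Rep.of (opM I)).surjective (φ (Submodule.Quotient.mk 1))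
  have hk : ∀ g ∈ (↑F : Set (Gen I)), (FreeAlgebra.ι F2 g : Rg I) • (a • y) = 0 :=
    fun g hg => by rw [smul_comm, hy2 g hg, smul_zero]
  refine ⟨fromQuot _ (a • y) hk, ?_⟩
  refine quot_ext _ _ _ ?_
  refine Eq.trans ?_ ha
  refine Eq.trans (congrArg (proj o) (fromQuot_one _ _ hk)) ?_
  rw [proj_smul, hy1, ← map_smul]
  congr 1
  ext
  simp

theorem not_cls_pt [Infinite I] (o : Bs I) : ¬ Cls o (cocone I).pt := by
  intro h
  obtain ⟨ψ, hψ⟩ := h (fromQuot Set.univ (Rep.of (opM I) (ULift.up 1))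
    (fun g _ => gen_smul_M g _))
  refine no_total_lift o (ψ (Submodule.Quotient.mk 1)) ?_ ?_
  · exact (LinearMap.congr_fun hψ _).trans (fromQuot_one _ _ _)
  · intro g
    have h := gen_smul_one (Set.univ : Set (Gen I)) g trivial
    exact (ψ.map_smul _ _).symm.trans ((congrArg ψ h).trans (map_zero _))

theorem mk_sys [Infinite I] (F : Finset (Gen I)) : #((sys I).obj F) ≤ #I := by
  exact (mk_le_of_surjective
    (Submodule.Quotient.mk_surjective (lid (↑F : Set (Gen I))))).trans mk_Rg.le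

theorem mk_index [Infinite I] : #(Finset (Gen I)) = #I := by
  rw [mk_finset_of_infinite, mk_Gen]

end Pool.Agent.Lib.MP_65eb6b_al
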