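import Mathlib
import Pool.Agent.Lib.MP_65eb6b_al.Main

/-!
Measurable cardinals are inaccessible; the least inaccessible cardinal.
-/

set_option autoImplicit false

open Cardinal Set

universe u

namespace Pool.Agent.Lib.MP_65eb6b_al

theorem notMem_of_small {D : Type u} (U : Ultrafilter D) {κ : Cardinal.{u}}
    [CardinalInterFilter (U : Filter D) κ] (hU : ∀ d, U ≠ pure d) {S : Set D} (hS : #S < κ) :
    Sᶜ ∈ U := by
  have h1 : ∀ d : D, ({d}ᶜ : Set D) ∈ U := by
    intro d
    rw [Ultrafilter.compl_mem_iff_notMem]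
    intro hd
    obtain ⟨x, -, hx⟩ := Ultrafilter.eq_pure_of_finite_mem (finite_singleton d) hd
    exact hU x hx
  have h2 : (⋂ d : S, ({d.1}ᶜ : Set D)) ∈ (U : Filter D) :=
    (Filter.cardinal_iInter_mem hS).2 fun d => h1 d.1
  refine Filter.mem_of_superset h2 ?_
  intro x hx hxS
  exact mem_iInter.1 hx ⟨x, hxS⟩ rfl

theorem IsMeasurable.isInaccessible {κ : Cardinal.{u}} (h : IsMeasurable κ) :
    κ.IsInaccessible := by
  classical
  obtain ⟨h0, D, U, hD, hc, hnp⟩ := h
  refine ⟨h0, ?_, ?_⟩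
  · obtain ⟨e⟩ : Nonempty (D ≃ κ.ord.ToType) := Cardinal.eq.1 (by rw [hD, mk_ord_toType])
    rw [← Ordinal.cof_toType, Order.le_cof_iff]
    intro s hs
    by_contra hlt
    push Not at hlt
    have h1 : ∀ i : s, (e ⁻¹' Iic i.1)ᶜ ∈ U := by
      intro i
      refine notMem_of_small U (κ := κ) hnp ?_
      rw [mk_preimage_equiv]
      have := mk_Iic_lt i.1 (by simp) (by rw [mk_ord_toType]; exact h0.le)
      rwa [mk_ord_toType] at this
    have h2 : (⋂ i : s, (e ⁻¹' Iic i.1)ᶜ) ∈ (U : Filter D) :=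
      (Filter.cardinal_iInter_mem hlt).2 h1
    obtain ⟨x, hx⟩ := Ultrafilter.nonempty_of_mem h2
    obtain ⟨y, hy, hxy⟩ := hs (e x)
    exact mem_iInter.1 hx ⟨y, hy⟩ hxy
  · intro x hx
    by_contra hle
    push Not at hle
    obtain ⟨X, rfl⟩ : ∃ X : Type u, #X = x := ⟨x.out, mk_out x⟩
    have hle' : #D ≤ #(Set X) := by rwa [hD, mk_set]
    obtain ⟨e⟩ := (Cardinal.le_def _ _).1 hle'
    let t : X → Set D := fun n => if {b | n ∈ e b} ∈ U then {b | n ∈ e b} else {b | n ∈ e b}ᶜ
    have ht : ∀ n, t n ∈ U := by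
      intro n
      by_cases h : {b | n ∈ e b} ∈ U
      · simp [t, h]
      · simp only [t, h, if_false]
        exact Ultrafilter.compl_mem_iff_notMem.2 h
    have h2 : (⋂ n, t n) ∈ (U : Filter D) := (Filter.cardinal_iInter_mem hx).2 ht
    obtain ⟨b, hb⟩ := Ultrafilter.nonempty_of_mem h2
    have hsub : (⋂ n, t n) ⊆ {b} := by
      intro b' hb'
      rw [mem_singleton_iff]
      apply e.injective
      ext n
      have h3 := mem_iInter.1 hb n
      have h4 := mem_iInter.1 hb' n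
      by_cases h : {b | n ∈ e b} ∈ U
      · simp only [t, h, if_true] at h3 h4
        exact ⟨fun _ => h3, fun _ => h4⟩
      · simp only [t, h, if_false] at h3 h4
        exact ⟨fun h' => absurd h' h4, fun h' => absurd h' h3⟩
    have hsing : ({b} : Set D) ∈ U := Filter.mem_of_superset h2 hsub
    obtain ⟨y, -, hy⟩ := Ultrafilter.eq_pure_of_finite_mem (finite_singleton b) hsing
    exact hnp y hy

theorem exists_least_inaccessible :
    ∃ κ : Cardinal.{u + 1}, κ.IsInaccessible ∧ ∀ c < κ, ¬ c.IsInaccessible := by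
  let W : Set Cardinal.{u + 1} := {c | c.IsInaccessible}
  have hW : W.Nonempty := ⟨Cardinal.univ.{u, u + 1}, IsInaccessible.univ⟩
  exact ⟨sInf W, csInf_mem hW, fun c hc h => absurd (csInf_le' (show c ∈ W from h)) (not_le.2 hc)⟩

end Pool.Agent.Lib.MP_65eb6b_al
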