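import Mathlib

set_option autoImplicit false

/-! Covering classes, `Add G`, filtered modules. -/

open CategoryTheory

universe u

namespace Pool.Agent.Lib.MP_65eb6b_al.EC

variable {R : Type u} [Ring R]

/-- Every module has a `C`-cover. -/
def IsCovering (C : ModuleCat.{u} R → Prop) : Prop :=
  ∀ M : ModuleCat.{u} R, ∃ (X : ModuleCat.{u} R) (f : X ⟶ M), C X ∧
    (∀ (Y : ModuleCat.{u} R) (g : Y ⟶ M), C Y → ∃ h : Y ⟶ X, h ≫ f = g) ∧
    (∀ e : X ⟶ X, e ≫ f = f → IsIso e)

/-- `X` is isomorphic to a direct summand of `Y`. -/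
def IsSummand (X Y : ModuleCat.{u} R) : Prop :=
  ∃ (i : X ⟶ Y) (e : Y ⟶ X), i ≫ e = 𝟙 X

/-- `X` belongs to `Add G`: it is isomorphic to a direct summand of a direct sum of copies
of `G`. -/
def InAdd (G X : ModuleCat.{u} R) : Prop :=
  ∃ I : Type u, IsSummand X (ModuleCat.of R (I →₀ G))

/-- `P` is `S`-filtered: it is the union of a well-ordered increasing chain of submodules `N i`
such that each `N i` modulo the union of the earlier members is isomorphic to some `S s`. -/
def IsFiltered {ι : Type u} (S : ι → ModuleCat.{u} R) (P : ModuleCat.{u} R) : Prop :=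
  ∃ (I : Type u) (_ : LinearOrder I) (_ : WellFoundedLT I) (N : I → Submodule R P),
    Monotone N ∧ ⨆ i, N i = ⊤ ∧
      ∀ i, ∃ s, Nonempty ((N i ⧸ (⨆ j ∈ Set.Iio i, N j).comap (N i).subtype) ≃ₗ[R] S s)

end Pool.Agent.Lib.MP_65eb6b_al.EC
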