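import Mathlib

set_option autoImplicit false

/-! Direct systems of modules, gluing of linear maps, small cardinal estimates. -/

open Cardinal

universe u

namespace Pool.Agent.Lib.MP_65eb6b_al.EC

variable {R : Type u} [Ring R]

/-- A direct system of modules over a preorder. -/
structure Sys (R : Type u) [Ring R] (J : Type u) [Preorder J] : Type (u + 1) where
  X : J → ModuleCat.{u} R
  t : ∀ i j, i ≤ j → X i →ₗ[R] X j
  t_self : ∀ i x, t i i le_rfl x = x
  t_t : ∀ i j k (hij : i ≤ j) (hjk : j ≤ k) x, t j k hjk (t i j hij x) = t i k (hij.trans hjk) x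

/-- `g` exhibits `M` as the direct limit of `F`. -/
structure IsDL {J : Type u} [Preorder J] (F : Sys R J) (M : ModuleCat.{u} R)
    (g : ∀ j, F.X j →ₗ[R] M) : Prop where
  comm : ∀ i j h x, g j (F.t i j h x) = g i x
  surj : ∀ m, ∃ j x, g j x = m
  ker : ∀ j x, g j x = 0 → ∃ k, ∃ h : j ≤ k, F.t j k h x = 0

/-- Reindexing along a monotone map. -/
abbrev Sys.comap {J J' : Type u} [Preorder J] [Preorder J'] (F : Sys R J) (v : J' → J)
    (hv : Monotone v) : Sys R J' where
  X j := F.X (v j)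
  t i j h := F.t (v i) (v j) (hv h)
  t_self i x := F.t_self (v i) x
  t_t i j k hij hjk x := F.t_t (v i) (v j) (v k) (hv hij) (hv hjk) x

theorem descend {A B T : Type u} [AddCommGroup A] [Module R A] [AddCommGroup B] [Module R B]
    [AddCommGroup T] [Module R T] (p : A →ₗ[R] B) (hp : Function.Surjective p) (φ : A →ₗ[R] T)
    (h : ∀ x, p x = 0 → φ x = 0) : ∃ ψ : B →ₗ[R] T, ∀ x, ψ (p x) = φ x := by
  refine ⟨((LinearMap.ker p).liftQ φ (fun x hx => h x hx)) ∘ₗ
    (p.quotKerEquivOfSurjective hp).symm.toLinearMap, fun x => ?_⟩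
  have : (p.quotKerEquivOfSurjective hp).symm (p x) = Submodule.Quotient.mk x := by
    rw [LinearEquiv.symm_apply_eq]; rfl
  simp [this]

theorem IsDL.lift {J : Type u} [Preorder J] [IsDirected J (· ≤ ·)] {F : Sys R J}
    {M : ModuleCat.{u} R} {g : ∀ j, F.X j →ₗ[R] M} (h : IsDL F M g)
    {T : Type u} [AddCommGroup T] [Module R T] (φ : ∀ j, F.X j →ₗ[R] T)
    (hφ : ∀ i j hij x, φ j (F.t i j hij x) = φ i x) :
    ∃ ψ : M →ₗ[R] T, ∀ j x, ψ (g j x) = φ j x := by
  have wd : ∀ i j x y, g i x = g j y → φ i x = φ j y := by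
    intro i j x y hxy
    obtain ⟨k, hik, hjk⟩ := exists_ge_ge i j
    have h0 : g k (F.t i k hik x - F.t j k hjk y) = 0 := by
      rw [map_sub, h.comm, h.comm, hxy, sub_self]
    obtain ⟨l, hkl, hl⟩ := h.ker k _ h0
    have := hφ k l hkl (F.t i k hik x - F.t j k hjk y)
    rw [hl, map_zero, map_sub, hφ, hφ] at this
    exact sub_eq_zero.1 this.symm
  choose j x hx using h.surj
  refine ⟨{ toFun := fun m => φ (j m) (x m), map_add' := ?_, map_smul' := ?_ }, ?_⟩
  · intro a b
    obtain ⟨k, hik, hjk⟩ := exists_ge_ge (j a) (j b)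
    rw [← hφ _ k hik (x a), ← hφ _ k hjk (x b), ← map_add]
    apply wd
    rw [hx, map_add, h.comm, h.comm, hx, hx]
  · intro c a
    rw [RingHom.id_apply, ← map_smul]
    apply wd
    rw [hx, map_smul, hx]
  · intro i y
    exact wd _ _ _ _ (hx _)

theorem exists_isDL {J : Type u} [Preorder J] [IsDirected J (· ≤ ·)] [Nonempty J] (F : Sys R J) :
    ∃ (M : ModuleCat.{u} R) (g : ∀ j, F.X j →ₗ[R] M), IsDL F M g := by
  classical
  have : DirectedSystem (fun j => (F.X j : Type u)) (fun i j h => F.t i j h) :=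
    ⟨fun i x => F.t_self i x, fun k j i hij hjk x => F.t_t i j k hij hjk x⟩
  refine ⟨ModuleCat.of R (Module.DirectLimit (fun j => (F.X j : Type u)) F.t),
    fun j => Module.DirectLimit.of R J (fun j => (F.X j : Type u)) F.t j, ?_, ?_, ?_⟩
  · intro i j h x
    exact Module.DirectLimit.of_f
  · intro m
    exact Module.DirectLimit.exists_of m
  · intro j x hx
    exact Module.DirectLimit.of.zero_exact hx

/-- Gluing linear maps along a directed family of submodules. -/
theorem glue {A T : Type u} [AddCommGroup A] [Module R A] [AddCommGroup T] [Module R T]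
    {I : Type u} (N : I → Submodule R A) (hN : Directed (· ≤ ·) N) (φ : I → (A →ₗ[R] T))
    (h : ∀ i j x, x ∈ N i → x ∈ N j → φ i x = φ j x) :
    ∃ ψ : (⨆ i, N i : Submodule R A) →ₗ[R] T, ∀ i (x : (⨆ i, N i : Submodule R A)),
      (x : A) ∈ N i → ψ x = φ i x := by
  rcases isEmpty_or_nonempty I with hI | hI
  · exact ⟨0, fun i => hI.elim i⟩
  have hx : ∀ x : (⨆ i, N i : Submodule R A), ∃ i, (x : A) ∈ N i := fun x =>
    (Submodule.mem_iSup_of_directed N hN).1 x.2
  choose j hj using hx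
  refine ⟨{ toFun := fun x => φ (j x) x, map_add' := ?_, map_smul' := ?_ }, ?_⟩
  · intro a b
    obtain ⟨k, hik, hjk⟩ := hN (j a) (j b)
    rw [h _ k _ (hj a) (hik (hj a)), h _ k _ (hj b) (hjk (hj b)), ← map_add]
    exact h _ _ _ (hj _) ((N k).add_mem (hik (hj a)) (hjk (hj b)))
  · intro c a
    rw [RingHom.id_apply, ← map_smul]
    exact h _ _ _ (hj _) ((N _).smul_mem c (hj a))
  · intro i x hi
    exact h _ _ _ (hj _) hi

/-- If `1 + w h` is bijective, so is `1 + h w`. -/
theorem bij_swap {A B : Type u} [AddCommGroup A] [Module R A] [AddCommGroup B] [Module R B]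
    (w : A →ₗ[R] B) (h : B →ₗ[R] A)
    (hb : Function.Bijective (LinearMap.id + w ∘ₗ h : B →ₗ[R] B)) :
    Function.Bijective (LinearMap.id + h ∘ₗ w : A →ₗ[R] A) := by
  constructor
  · rw [injective_iff_map_eq_zero]
    intro a ha
    have ha' : a + h (w a) = 0 := ha
    have h1 : (LinearMap.id + w ∘ₗ h : B →ₗ[R] B) (w a) = 0 := by
      change w a + w (h (w a)) = 0
      rw [← map_add, ha', map_zero]
    have h2 : w a = 0 := (injective_iff_map_eq_zero _).1 hb.1 _ h1
    rwa [h2, map_zero, add_zero] at ha'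
  · intro a
    obtain ⟨b, hb'⟩ := hb.2 (w a)
    have hb'' : b + w (h b) = w a := hb'
    refine ⟨a - h b, ?_⟩
    change a - h b + h (w (a - h b)) = a
    rw [map_sub w, ← hb'', add_sub_cancel_right, sub_add_cancel]

theorem mk_iUnion_le_of {α ι : Type u} (f : ι → Set α) {l : Cardinal.{u}} (hl : ℵ₀ ≤ l)
    (hι : #ι ≤ l) (hf : ∀ i, #(f i) ≤ l) : #(⋃ i, f i) ≤ l := by
  calc #(⋃ i, f i) ≤ sum fun i => #(f i) := mk_iUnion_le_sum_mk
    _ ≤ sum fun _ : ι => l := sum_le_sum _ _ hf
    _ = #ι * l := by simp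
    _ ≤ l * l := by gcongr
    _ = l := mul_eq_self hl

theorem mk_span_le_of {A : Type u} [AddCommGroup A] [Module R A] (s : Set A) {l : Cardinal.{u}}
    (hl : ℵ₀ ≤ l) (hR : #R ≤ l) (hs : #s ≤ l) : #(Submodule.span R s) ≤ l := by
  have h1 : #(List (R × s)) ≤ l := by
    refine (mk_list_le_max _).trans (max_le hl ?_)
    rw [mk_prod, lift_id, lift_id]
    calc #R * #s ≤ l * l := by gcongr
      _ = l := mul_eq_self hl
  let φ : List (R × s) → A := fun L => (L.map fun p => p.1 • (p.2 : A)).sum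
  have h2 : (Submodule.span R s : Set A) ⊆ Set.range φ := by
    intro x hx
    induction hx using Submodule.span_induction with
    | mem x hx => exact ⟨[(1, ⟨x, hx⟩)], by simp [φ]⟩
    | zero => exact ⟨[], by simp [φ]⟩
    | add x y _ _ hx hy =>
      obtain ⟨a, rfl⟩ := hx
      obtain ⟨b, rfl⟩ := hy
      exact ⟨a ++ b, by simp [φ]⟩
    | smul c x _ hx =>
      obtain ⟨a, rfl⟩ := hx
      refine ⟨a.map fun p => (c * p.1, p.2), ?_⟩
      simp only [φ, List.map_map, List.smul_sum]
      congr 1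
      refine List.map_congr_left fun p _ => ?_
      simp [mul_smul]
  exact (mk_le_mk_of_subset h2).trans (mk_range_le.trans h1)

end Pool.Agent.Lib.MP_65eb6b_al.EC
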