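import Mathlib
import Pool.Agent.Lib.MP_65eb6b_al.ECBasic

set_option autoImplicit false

/-! Reduction of directed systems to well-ordered chains. -/

open Cardinal

universe u

namespace Pool.Agent.Lib.MP_65eb6b_al.EC

variable {R : Type u} [Ring R]

theorem exists_mono_ub (J : Type u) [Preorder J] [IsDirected J (· ≤ ·)] [Nonempty J] :
    ∃ ub : Finset J → J, Monotone ub ∧ ∀ s x, x ∈ s → x ≤ ub s := by
  classical
  choose up hup using fun s : Finset J => Finset.exists_le s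
  let U : ℕ → Finset J → J := fun n =>
    Nat.rec up (fun _ V s => up (s ∪ s.powerset.image V)) n
  have h1 : ∀ n s t, s ⊆ t → U n s ≤ U (n + 1) t := fun n s t hst =>
    hup _ _ (Finset.mem_union_right _ (Finset.mem_image_of_mem _ (Finset.mem_powerset.2 hst)))
  have h2 : ∀ n m s t, n < m → s ⊆ t → U n s ≤ U m t := by
    intro n m s t hnm hst
    induction m, hnm using Nat.le_induction with
    | base => exact h1 n s t hst
    | succ m _ ih => exact ih.trans (h1 m t t subset_rfl)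
  refine ⟨fun s => U s.card s, fun s t hst => ?_, fun s x hx => ?_⟩
  · rcases hst.eq_or_lt with h | h
    · rw [h]
    · exact h2 _ _ _ _ (Finset.card_lt_card h) hst
  · change x ≤ U s.card s
    cases s.card with
    | zero => exact hup _ _ hx
    | succ n => exact hup _ _ (Finset.mem_union_left _ hx)

/-- Finite subsets of `A`. -/
abbrev FinSub {J : Type u} (A : Set J) : Type u := {s : Finset J // (s : Set J) ⊆ A}

instance {J : Type u} (A : Set J) : Nonempty (FinSub A) := ⟨⟨∅, by simp⟩⟩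

instance {J : Type u} (A : Set J) : IsDirected (FinSub A) (· ≤ ·) := by
  classical
  refine ⟨fun s t => ⟨⟨s.1 ∪ t.1, ?_⟩, ?_, ?_⟩⟩
  · rw [Finset.coe_union]; exact Set.union_subset s.2 t.2
  · exact Finset.subset_union_left
  · exact Finset.subset_union_right

/-- Restriction of a system over finite sets to the finite subsets of `A`. -/
abbrev Sys.res {J : Type u} (G : Sys R (Finset J)) (A : Set J) : Sys R (FinSub A) :=
  G.comap Subtype.val fun _ _ h => h

theorem iwamura_aux (M : ModuleCat.{u} R) (Q : ∀ N : ModuleCat.{u} R, (N →ₗ[R] M) → Prop)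
    (hchain : ∀ (K : Type u) [LinearOrder K] [WellFoundedLT K] [Nonempty K] (F : Sys R K)
      (N : ModuleCat.{u} R) (γ : ∀ k, F.X k →ₗ[R] N), IsDL F N γ → ∀ φ : N →ₗ[R] M,
      (∀ k, Q (F.X k) (φ ∘ₗ γ k)) → Q N φ)
    {J : Type u} (G : Sys R (Finset J)) (g : ∀ s, G.X s →ₗ[R] M) (hQ : ∀ s, Q (G.X s) (g s))
    (c : Cardinal.{u}) : ∀ A : Set J, #A = c → ∀ (N : ModuleCat.{u} R)
      (γ : ∀ s, (G.res A).X s →ₗ[R] N), IsDL (G.res A) N γ → ∀ φ : N →ₗ[R] M,
      (∀ s : FinSub A, φ ∘ₗ γ s = g s.1) → Q N φ := by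
  induction c using WellFoundedLT.induction with
  | ind c ih =>
  intro A hA N γ hγ φ hφ
  rcases A.finite_or_infinite with hfin | hinf
  · let s0 : FinSub A := ⟨hfin.toFinset, by simp⟩
    have htop : ∀ s : FinSub A, s ≤ s0 := fun s x hx => by simpa [s0] using s.2 hx
    refine hchain PUnit ((G.res A).comap (fun _ => s0) monotone_const) N (fun _ => γ s0)
      ⟨fun i j h x => hγ.comm s0 s0 le_rfl x, fun m => ?_, fun j x hx => ?_⟩ φ fun _ => ?_
    · obtain ⟨s, x, rfl⟩ := hγ.surj m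
      exact ⟨PUnit.unit, (G.res A).t s s0 (htop s) x, hγ.comm _ _ _ _⟩
    · obtain ⟨k, hk, hx⟩ := hγ.ker s0 x hx
      refine ⟨j, le_rfl, ?_⟩
      have := (G.res A).t_t s0 k s0 hk (htop k) x
      rw [hx, map_zero] at this
      exact this.symm
    · have := hQ s0.1
      rw [← hφ s0] at this
      exact this
  · have hc : ℵ₀ ≤ c := hA ▸ Cardinal.infinite_iff.1 hinf.to_subtype
    let K : Type u := c.ord.ToType
    have hK : #K = #A := by rw [hA]; exact mk_ord_toType c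
    obtain ⟨e⟩ := Cardinal.eq.1 hK
    have : Nonempty K := ⟨e.symm ⟨hinf.nonempty.some, hinf.nonempty.some_mem⟩⟩
    let B : K → Set J := fun k => (fun l => (e l : J)) '' Set.Iic k
    have hBA : ∀ k, B k ⊆ A := by
      rintro k _ ⟨l, _, rfl⟩; exact (e l).2
    have hBm : ∀ k l, k ≤ l → B k ⊆ B l := fun k l h =>
      Set.image_mono (Set.Iic_subset_Iic.2 h)
    have hBc : ∀ k, #(B k) < c := fun k => by
      refine mk_image_le.trans_lt ?_
      have := mk_Iic_lt k (by simp [K]) (by rw [hK, hA]; exact hc)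
      rwa [hK, hA] at this
    have hBs : ∀ s : FinSub A, ∃ k, (s.1 : Set J) ⊆ B k := by
      intro s
      classical
      obtain ⟨k, hk⟩ := Finset.exists_le 
        (s.1.attach.image fun x : {x // x ∈ s.1} => e.symm ⟨x.1, s.2 x.2⟩)
      refine ⟨k, fun x hx => ⟨e.symm ⟨x, s.2 hx⟩, hk _ ?_, by simp⟩⟩
      exact Finset.mem_image.2 ⟨⟨x, hx⟩, Finset.mem_attach _ _, rfl⟩
    choose L η hη using fun k => exists_isDL (G.res (B k))
    have hτ : ∀ k l (h : k ≤ l), ∃ τ : L k →ₗ[R] L l, ∀ (s : FinSub (B k)) x,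
        τ (η k s x) = η l ⟨s.1, s.2.trans (hBm k l h)⟩ x := fun k l h =>
      (hη k).lift (fun s => η l ⟨s.1, s.2.trans (hBm k l h)⟩) fun i j hij x =>
        (hη l).comm ⟨i.1, i.2.trans (hBm k l h)⟩ ⟨j.1, j.2.trans (hBm k l h)⟩ hij x
    choose τ hτ using hτ
    have hδ : ∀ k, ∃ δ : L k →ₗ[R] N, ∀ (s : FinSub (B k)) x,
        δ (η k s x) = γ ⟨s.1, s.2.trans (hBA k)⟩ x := fun k =>
      (hη k).lift (fun s => γ ⟨s.1, s.2.trans (hBA k)⟩) fun i j hij x =>
        hγ.comm ⟨i.1, i.2.trans (hBA k)⟩ ⟨j.1, j.2.trans (hBA k)⟩ hij x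
    choose δ hδ using hδ
    let H : Sys R K :=
      { X := L
        t := τ
        t_self := fun k y => by
          obtain ⟨s, x, rfl⟩ := (hη k).surj y
          rw [hτ]
        t_t := fun i j k hij hjk y => by
          obtain ⟨s, x, rfl⟩ := (hη i).surj y
          rw [hτ, hτ, hτ] }
    refine hchain K H N δ ⟨fun i j h y => ?_, fun m => ?_, fun k y hy => ?_⟩ φ fun k => ?_
    · obtain ⟨s, x, rfl⟩ := (hη i).surj y
      change δ j (τ i j h _) = _
      rw [hτ, hδ, hδ]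
    · obtain ⟨s, x, rfl⟩ := hγ.surj m
      obtain ⟨k, hk⟩ := hBs s
      exact ⟨k, η k ⟨s.1, hk⟩ x, hδ k ⟨s.1, hk⟩ x⟩
    · obtain ⟨s, x, rfl⟩ := (hη k).surj y
      rw [hδ] at hy
      obtain ⟨s', hs', hx⟩ := hγ.ker _ _ hy
      obtain ⟨l, hl⟩ := hBs s'
      refine ⟨max k l, le_max_left _ _, ?_⟩
      change τ k _ _ _ = 0
      rw [hτ]
      have := (hη (max k l)).comm ⟨s.1, s.2.trans (hBm k _ (le_max_left _ _))⟩
        ⟨s'.1, hl.trans (hBm l _ (le_max_right _ _))⟩ hs' x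
      rw [← this]
      have hx' : (G.res (B (max k l))).t ⟨s.1, s.2.trans (hBm k _ (le_max_left _ _))⟩
        ⟨s'.1, hl.trans (hBm l _ (le_max_right _ _))⟩ hs' x = 0 := hx
      rw [hx', map_zero]
    · refine ih _ (hBc k) (B k) rfl (L k) (η k) (hη k) _ fun s => ?_
      ext x
      have := LinearMap.congr_fun (hφ ⟨s.1, s.2.trans (hBA k)⟩) x
      change φ (δ k (η k s x)) = _
      rw [hδ]
      exact this

theorem iwamura (M : ModuleCat.{u} R) (Q : ∀ N : ModuleCat.{u} R, (N →ₗ[R] M) → Prop)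
    (hchain : ∀ (K : Type u) [LinearOrder K] [WellFoundedLT K] [Nonempty K] (F : Sys R K)
      (N : ModuleCat.{u} R) (γ : ∀ k, F.X k →ₗ[R] N), IsDL F N γ → ∀ φ : N →ₗ[R] M,
      (∀ k, Q (F.X k) (φ ∘ₗ γ k)) → Q N φ)
    {J : Type u} [Preorder J] [IsDirected J (· ≤ ·)] [Nonempty J] (F : Sys R J)
    (g : ∀ j, F.X j →ₗ[R] M) (hg : IsDL F M g) (hQ : ∀ j, Q (F.X j) (g j)) :
    Q M LinearMap.id := by
  classical
  obtain ⟨ub, hm, hub⟩ := exists_mono_ub J
  refine iwamura_aux M Q hchain (F.comap ub hm) (fun s => g (ub s)) (fun s => hQ _) _ Set.univ rfl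
    M (fun s => g (ub s.1)) ⟨fun i j h x => hg.comm _ _ _ x, fun m => ?_, fun s x hx => ?_⟩ _
    fun s => rfl
  · obtain ⟨j, x, rfl⟩ := hg.surj m
    exact ⟨⟨{j}, by simp⟩, F.t j (ub {j}) (hub _ _ (by simp)) x, hg.comm _ _ _ _⟩
  · obtain ⟨k, hk, hx⟩ := hg.ker _ _ hx
    refine ⟨⟨insert k s.1, by simp⟩, Finset.subset_insert _ _, ?_⟩
    have := F.t_t (ub s.1) k (ub (insert k s.1)) hk (hub _ _ (Finset.mem_insert_self _ _)) x
    rw [hx, map_zero] at this
    exact this.symm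

end Pool.Agent.Lib.MP_65eb6b_al.EC
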