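import Mathlib
import Pool.Agent.Lib.MP_65eb6b_al.ECBasic

set_option autoImplicit false

/-! The canonical presentation of the direct limit of a chain. -/

universe u

namespace Pool.Agent.Lib.MP_65eb6b_al.EC

variable {R : Type u} [Ring R] {J : Type u} [LinearOrder J] (F : Sys R J)

abbrev Sys.S : Type u := DirectSum J fun j => (F.X j : Type u)

def Sys.inc (j : J) : F.X j →ₗ[R] F.S := DirectSum.lof R J (fun j => (F.X j : Type u)) j

def Sys.desc {T : Type u} [AddCommGroup T] [Module R T] (g : ∀ j, F.X j →ₗ[R] T) : F.S →ₗ[R] T :=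
  DirectSum.toModule R J T g

theorem Sys.desc_inc {T : Type u} [AddCommGroup T] [Module R T] (g : ∀ j, F.X j →ₗ[R] T) (j : J)
    (x : F.X j) : F.desc g (F.inc j x) = g j x :=
  DirectSum.toModule_lof (M := fun j => (F.X j : Type u)) (φ := g) R j x

theorem Sys.hom_ext {T : Type u} [AddCommGroup T] [Module R T] {φ ψ : F.S →ₗ[R] T}
    (h : ∀ j x, φ (F.inc j x) = ψ (F.inc j x)) : φ = ψ :=
  DirectSum.linearMap_ext R fun j => LinearMap.ext fun x => h j x

def Sys.sg (m : J) : F.S →ₗ[R] F.X m := F.desc fun b => if h : b ≤ m then F.t b m h else 0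

def Sys.tr (m : J) : F.S →ₗ[R] F.S := F.desc fun b => if b ≤ m then F.inc b else 0

def Sys.r (m : J) : F.S →ₗ[R] F.S := F.tr m - F.inc m ∘ₗ F.sg m

def Sys.D (m : J) : Submodule R F.S := LinearMap.range (F.r m)

def Sys.Dlt (m : J) : Submodule R F.S := ⨆ a : Set.Iio m, F.D a

def Sys.Dall : Submodule R F.S := ⨆ a, F.D a

theorem Sys.sg_le {b m : J} (h : b ≤ m) (x : F.X b) : F.sg m (F.inc b x) = F.t b m h x := by
  rw [Sys.sg, Sys.desc_inc, dif_pos h]

theorem Sys.sg_gt {b m : J} (h : ¬ b ≤ m) (x : F.X b) : F.sg m (F.inc b x) = 0 := by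
  rw [Sys.sg, Sys.desc_inc, dif_neg h]; rfl

theorem Sys.tr_le {b m : J} (h : b ≤ m) (x : F.X b) : F.tr m (F.inc b x) = F.inc b x := by
  rw [Sys.tr, Sys.desc_inc, if_pos h]

theorem Sys.tr_gt {b m : J} (h : ¬ b ≤ m) (x : F.X b) : F.tr m (F.inc b x) = 0 := by
  rw [Sys.tr, Sys.desc_inc, if_neg h]; rfl

theorem Sys.r_apply (m : J) (s : F.S) : F.r m s = F.tr m s - F.inc m (F.sg m s) := rfl

theorem Sys.r_le {b m : J} (h : b ≤ m) (x : F.X b) :
    F.r m (F.inc b x) = F.inc b x - F.inc m (F.t b m h x) := by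
  rw [F.r_apply, F.tr_le h, F.sg_le h]

theorem Sys.r_gt {b m : J} (h : ¬ b ≤ m) (x : F.X b) : F.r m (F.inc b x) = 0 := by
  rw [F.r_apply, F.tr_gt h, F.sg_gt h, map_zero, sub_zero]

theorem Sys.r_r {a m : J} (h : a ≤ m) (s : F.S) : F.r m (F.r a s) = F.r a s := by
  refine LinearMap.congr_fun (F.hom_ext (φ := F.r m ∘ₗ F.r a) (ψ := F.r a) fun b x => ?_) s
  change F.r m (F.r a _) = _
  by_cases hb : b ≤ a
  · rw [F.r_le hb, map_sub, F.r_le (hb.trans h), F.r_le h, F.t_t]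
    abel
  · rw [F.r_gt hb, map_zero]

theorem Sys.r_of_mem {a m : J} (h : a ≤ m) {s : F.S} (hs : s ∈ F.D a) : F.r m s = s := by
  obtain ⟨s, rfl⟩ := hs
  exact F.r_r h s

theorem Sys.D_mono : Monotone F.D := fun _ _ h s hs => ⟨s, F.r_of_mem h hs⟩

theorem Sys.Dlt_le (m : J) : F.Dlt m ≤ F.D m := iSup_le fun a => F.D_mono (le_of_lt a.2)

theorem Sys.D_le_Dlt {a m : J} (h : a < m) : F.D a ≤ F.Dlt m :=
  le_iSup (fun a : Set.Iio m => F.D a) ⟨a, h⟩

theorem Sys.D_le_Dall (a : J) : F.D a ≤ F.Dall := le_iSup F.D a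

theorem Sys.sg_of_mem {a m : J} (h : a ≤ m) {s : F.S} (hs : s ∈ F.D a) : F.sg m s = 0 := by
  obtain ⟨s, rfl⟩ := hs
  refine LinearMap.congr_fun (F.hom_ext (φ := F.sg m ∘ₗ F.r a) (ψ := 0) fun b x => ?_) s
  change F.sg m (F.r a _) = 0
  by_cases hb : b ≤ a
  · rw [F.r_le hb, map_sub, F.sg_le (hb.trans h), F.sg_le h, F.t_t, sub_self]
  · rw [F.r_gt hb, map_zero]

theorem Sys.exists_tr [Nonempty J] (s : F.S) : ∃ m, ∀ k, m ≤ k → F.tr k s = s := by
  induction s using DirectSum.induction_on with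
  | zero => exact ⟨Classical.arbitrary J, fun _ _ => map_zero _⟩
  | of b x => exact ⟨b, fun k hk => F.tr_le hk x⟩
  | add x y hx hy =>
    obtain ⟨m, hm⟩ := hx
    obtain ⟨n, hn⟩ := hy
    exact ⟨max m n, fun k hk => by
      rw [map_add, hm k ((le_max_left _ _).trans hk), hn k ((le_max_right _ _).trans hk)]⟩

theorem Sys.sg_tr {m k : J} (h : m ≤ k) (s : F.S) : F.sg k (F.tr m s) = F.t m k h (F.sg m s) := by
  refine LinearMap.congr_fun (F.hom_ext (φ := F.sg k ∘ₗ F.tr m) (ψ := F.t m k h ∘ₗ F.sg m)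
    fun b x => ?_) s
  change F.sg k (F.tr m _) = F.t m k h (F.sg m _)
  by_cases hb : b ≤ m
  · rw [F.tr_le hb, F.sg_le hb, F.sg_le (hb.trans h), F.t_t]
  · rw [F.tr_gt hb, F.sg_gt hb, map_zero, map_zero]

variable {F}

theorem IsDL.desc_tr {M : ModuleCat.{u} R} {g : ∀ j, F.X j →ₗ[R] M} (hg : IsDL F M g) (m : J)
    (s : F.S) : F.desc g (F.tr m s) = g m (F.sg m s) := by
  refine LinearMap.congr_fun (F.hom_ext (φ := F.desc g ∘ₗ F.tr m) (ψ := g m ∘ₗ F.sg m)
    fun b x => ?_) s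
  change F.desc g (F.tr m _) = g m (F.sg m _)
  by_cases hb : b ≤ m
  · rw [F.tr_le hb, F.sg_le hb, F.desc_inc, hg.comm]
  · rw [F.tr_gt hb, F.sg_gt hb, map_zero, map_zero]

theorem IsDL.desc_surj {M : ModuleCat.{u} R} {g : ∀ j, F.X j →ₗ[R] M} (hg : IsDL F M g) :
    Function.Surjective (F.desc g) := fun m => by
  obtain ⟨j, x, rfl⟩ := hg.surj m
  exact ⟨F.inc j x, F.desc_inc g j x⟩

theorem IsDL.desc_eq_zero [Nonempty J] {M : ModuleCat.{u} R} {g : ∀ j, F.X j →ₗ[R] M}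
    (hg : IsDL F M g) (s : F.S) : F.desc g s = 0 ↔ s ∈ F.Dall := by
  constructor
  · intro hs
    obtain ⟨m, hm⟩ := F.exists_tr s
    have h1 : g m (F.sg m s) = 0 := by rw [← hg.desc_tr, hm m le_rfl, hs]
    obtain ⟨k, hk, h2⟩ := hg.ker m _ h1
    refine F.D_le_Dall k ⟨s, ?_⟩
    rw [F.r_apply, hm k hk, ← hm m le_rfl, F.sg_tr hk, h2, map_zero, sub_zero]
  · intro hs
    refine (iSup_le fun a => ?_ : F.Dall ≤ LinearMap.ker (F.desc g)) hs
    rintro _ ⟨s, rfl⟩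
    rw [LinearMap.mem_ker, F.r_apply, map_sub, hg.desc_tr, F.desc_inc, sub_self]

variable (F)

/-- The part of the chain below `m`. -/
abbrev Sys.below (m : J) : Sys R (Set.Iio m) := F.comap Subtype.val fun _ _ h => h

def Sys.ilt (m : J) : F.Dlt m →ₗ[R] F.D m := Submodule.inclusion (F.Dlt_le m)

/-- The quotient `D_m / D_{<m}`. -/
abbrev Sys.Q (m : J) : ModuleCat.{u} R :=
  ModuleCat.of R (F.D m ⧸ LinearMap.range (F.ilt m))

def Sys.rr (m : J) : F.S →ₗ[R] F.D m := (F.r m).rangeRestrict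

def Sys.kap (m : J) (b : Set.Iio m) : F.X b →ₗ[R] F.D m := F.rr m ∘ₗ F.inc b

theorem Sys.isDL_Q (m : J) [Nonempty (Set.Iio m)] :
    IsDL (F.below m) (F.Q m) fun b => (LinearMap.range (F.ilt m)).mkQ ∘ₗ F.kap m b := by
  have hc : ∀ (i j : Set.Iio m) (h : i ≤ j) (x : F.X i),
      (LinearMap.range (F.ilt m)).mkQ (F.kap m j (F.t i j h x)) =
        (LinearMap.range (F.ilt m)).mkQ (F.kap m i x) := by
    intro i j h x
    rw [eq_comm, Submodule.mkQ_apply, Submodule.mkQ_apply, Submodule.Quotient.eq]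
    refine ⟨⟨F.r j (F.inc i x), F.D_le_Dlt j.2 ⟨_, rfl⟩⟩, Subtype.ext ?_⟩
    change F.r j (F.inc i x) = F.r m (F.inc i x) - F.r m (F.inc j _)
    rw [F.r_le (show (i : J) ≤ j from h), F.r_le (le_of_lt i.2), F.r_le (le_of_lt j.2), F.t_t]
    abel
  refine ⟨hc, fun y => ?_, fun b x hx => ?_⟩
  · obtain ⟨⟨_, s, rfl⟩, rfl⟩ := (LinearMap.range (F.ilt m)).mkQ_surjective y
    change ∃ (j : Set.Iio m) (x : F.X j), (LinearMap.range (F.ilt m)).mkQ (F.kap m j x) =
      (LinearMap.range (F.ilt m)).mkQ (F.rr m s)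
    induction s using DirectSum.induction_on with
    | zero => exact ⟨Classical.arbitrary _, 0, by simp only [map_zero]⟩
    | of b x =>
      rcases lt_trichotomy b m with h | h | h
      · exact ⟨⟨b, h⟩, x, rfl⟩
      · subst h
        refine ⟨Classical.arbitrary _, 0, ?_⟩
        have : F.rr b (DirectSum.of (fun j => (F.X j : Type u)) b x) = 0 :=
          Subtype.ext (by
            change F.r b (F.inc b x) = 0
            rw [F.r_le le_rfl, F.t_self, sub_self])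
        rw [this, map_zero]
      · refine ⟨Classical.arbitrary _, 0, ?_⟩
        have : F.rr m (DirectSum.of (fun j => (F.X j : Type u)) b x) = 0 :=
          Subtype.ext (F.r_gt (not_le.2 h) x)
        rw [this, map_zero]
    | add x y hx hy =>
      obtain ⟨i, a, ha⟩ := hx
      obtain ⟨j, b, hb⟩ := hy
      refine ⟨max i j, F.t i _ (le_max_left i j) a + F.t j _ (le_max_right i j) b, ?_⟩
      rw [map_add, map_add, hc, hc, ha, hb, map_add, map_add]
  · obtain ⟨⟨y, hy⟩, hy'⟩ := (Submodule.Quotient.mk_eq_zero _).1 hx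
    have hy'' : y = F.r m (F.inc b x) := congrArg Subtype.val hy'
    obtain ⟨a, ha⟩ := (Submodule.mem_iSup_of_directed (fun a : Set.Iio m => F.D a)
      (Monotone.directed_le fun _ _ h => F.D_mono h)).1 hy
    refine ⟨max a b, le_max_right _ _, ?_⟩
    have h0 := F.sg_of_mem (show (a : J) ≤ (max a b : Set.Iio m) from le_max_left a b) ha
    rw [hy'', F.r_le (le_of_lt b.2), map_sub,
      F.sg_le (show (b : J) ≤ (max a b : Set.Iio m) from le_max_right a b),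
      F.sg_gt (not_le.2 (max a b).2), sub_zero] at h0
    exact h0

/-- Every map from `D_{<m}` to `K` extends to the whole sum. -/
def Sys.Ext (K : Type u) [AddCommGroup K] [Module R K] (m : J) : Prop :=
  ∀ ψ : F.Dlt m →ₗ[R] K, ∃ ψ' : F.S →ₗ[R] K, ∀ x : F.Dlt m, ψ' x = ψ x

theorem Sys.ext_of_isEmpty (K : Type u) [AddCommGroup K] [Module R K] (m : J)
    [IsEmpty (Set.Iio m)] : F.Ext K m := by
  intro ψ
  refine ⟨0, fun x => ?_⟩
  have h : F.Dlt m ≤ ⊥ := iSup_le fun a => isEmptyElim a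
  have : x = 0 := Subtype.ext (h x.2)
  rw [this, map_zero]; rfl

theorem Sys.ext_of (K : Type u) [AddCommGroup K] [Module R K] (m : J)
    (h : ∀ ψ : F.Dlt m →ₗ[R] K, ∃ ψ' : F.D m →ₗ[R] K, ∀ x, ψ' (F.ilt m x) = ψ x) : F.Ext K m := by
  intro ψ
  obtain ⟨ψ', hψ⟩ := h ψ
  refine ⟨ψ' ∘ₗ F.rr m, fun x => ?_⟩
  rw [← hψ]
  exact congrArg ψ' (Subtype.ext (F.r_of_mem le_rfl (F.Dlt_le m x.2)))

end Pool.Agent.Lib.MP_65eb6b_al.EC
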