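import Mathlib
import Pool.Agent.Lib.MP_65eb6b_al.ECChain

set_option autoImplicit false

/-! The tree module of a well-ordered chain and the branch-counting lemma. -/

open Cardinal

universe u

namespace Pool.Agent.Lib.MP_65eb6b_al.EC

variable {R : Type u} [Ring R] {J : Type u} [LinearOrder J] (F : Sys R J) {B : J → Type u}

def agree (b b' : ∀ a, B a) (a : J) : Prop := ∀ c, c < a → b c = b' c

variable (B) in
noncomputable def Sys.rel : Submodule R ((∀ a, B a) →₀ F.S) :=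
  Submodule.span R {z | ∃ a x b b', x ∈ F.D a ∧ agree b b' a ∧
    z = Finsupp.single b x - Finsupp.single b' x}

variable (B) in
/-- The tree module. -/
noncomputable abbrev Sys.L : ModuleCat.{u} R := ModuleCat.of R (((∀ a, B a) →₀ F.S) ⧸ F.rel B)

noncomputable def Sys.io (b : ∀ a, B a) : F.S →ₗ[R] F.L B := (F.rel B).mkQ ∘ₗ Finsupp.lsingle b

theorem Sys.io_eq {a : J} {x : F.S} {b b' : ∀ a, B a} (hx : x ∈ F.D a) (h : agree b b' a) :
    F.io b x = F.io b' x :=
  (Submodule.Quotient.eq _).2 (Submodule.subset_span ⟨a, x, b, b', hx, h, rfl⟩)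

theorem Sys.mem_Dlt {a : J} {x : F.S} (hx : x ∈ F.Dlt a) : x = 0 ∨ ∃ c, c < a ∧ x ∈ F.D c := by
  rcases isEmpty_or_nonempty (Set.Iio a) with h | h
  · exact Or.inl ((iSup_le fun a => isEmptyElim a : F.Dlt a ≤ ⊥) hx)
  · obtain ⟨c, hc⟩ := (Submodule.mem_iSup_of_directed (fun c : Set.Iio a => F.D c)
      (Monotone.directed_le fun _ _ h => F.D_mono h)).1 hx
    exact Or.inr ⟨c, c.2, hc⟩

variable [WellFoundedLT J]

theorem Sys.exists_rho [Nonempty J] (b : ∀ a, B a) :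
    ∃ ρ : F.L B →ₗ[R] F.S, (∀ x, ρ (F.io b x) = x) ∧
      ∀ z : (∀ a, B a) →₀ F.S, b ∉ z.support → ρ ((F.rel B).mkQ z) ∈ F.Dall := by
  classical
  have hfd : ∀ b' : ∀ a, B a, ∃ m, b' ≠ b → b m ≠ b' m ∧ agree b b' m := by
    intro b'
    by_cases h : b' = b
    · exact ⟨Classical.arbitrary J, fun h' => (h' h).elim⟩
    · have hne : {a | b a ≠ b' a}.Nonempty := by
        by_contra hc
        refine h (funext fun a => ?_)
        by_contra hc'
        exact hc ⟨a, fun h => hc' h.symm⟩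
      refine ⟨wellFounded_lt.min _ hne, fun _ => ⟨wellFounded_lt.min_mem _ hne, fun c hc => ?_⟩⟩
      by_contra hc'
      exact wellFounded_lt.not_lt_min {a | b a ≠ b' a} hc' hc
  choose fd hfd using hfd
  let φ : (∀ a, B a) → F.S →ₗ[R] F.S := fun b' => if b' = b then LinearMap.id else F.r (fd b')
  have hid : ∀ c a x, agree b c a → x ∈ F.D a → φ c x = x := by
    intro c a x hc hx
    by_cases h : c = b
    · simp [φ, h]
    · simp only [φ, if_neg h]
      refine F.r_of_mem (not_lt.1 fun hlt => (hfd c h).1 (hc _ hlt)) hx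
  have hlt : ∀ c a, ¬ agree b c a → c ≠ b ∧ fd c < a := by
    intro c a hc
    have h : c ≠ b := fun h => hc fun _ _ => by rw [h]
    exact ⟨h, not_le.1 fun hle => hc fun d hd => (hfd c h).2 d (hd.trans_le hle)⟩
  have hwd : ∀ a x c c', x ∈ F.D a → agree c c' a → φ c x = φ c' x := by
    intro a x c c' hx hcc
    by_cases h : agree b c a
    · rw [hid c a x h hx, hid c' a x (fun d hd => (h d hd).trans (hcc d hd)) hx]
    · obtain ⟨h1, h2⟩ := hlt c a h
      obtain ⟨h3, h4⟩ := hlt c' a fun h' => h fun d hd => (h' d hd).trans (hcc d hd).symm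
      have : fd c = fd c' := by
        rcases lt_trichotomy (fd c) (fd c') with h5 | h5 | h5
        · exact ((hfd c h1).1 (((hfd c' h3).2 _ h5).trans (hcc _ h2).symm)).elim
        · exact h5
        · exact ((hfd c' h3).1 (((hfd c h1).2 _ h5).trans (hcc _ h4))).elim
      simp only [φ, if_neg h1, if_neg h3, this]
  let Φ : ((∀ a, B a) →₀ F.S) →ₗ[R] F.S := Finsupp.lsum ℕ φ
  have hΦ : ∀ c x, Φ (Finsupp.single c x) = φ c x := fun c x => Finsupp.lsum_single _ _ _ _
  have hrel : F.rel B ≤ LinearMap.ker Φ := by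
    refine Submodule.span_le.2 ?_
    rintro _ ⟨a, x, c, c', hx, hcc, rfl⟩
    change Φ _ = 0
    rw [map_sub, hΦ, hΦ, hwd a x c c' hx hcc, sub_self]
  refine ⟨(F.rel B).liftQ Φ hrel, fun x => ?_, fun z hz => ?_⟩
  · change Φ (Finsupp.single b x) = x
    rw [hΦ]; simp [φ]
  · change Φ z ∈ _
    rw [← Finsupp.sum_single z, Finsupp.sum, map_sum]
    refine Submodule.sum_mem _ fun c hc => ?_
    have : c ≠ b := fun h => hz (h ▸ hc)
    rw [hΦ]
    simp only [φ, if_neg this]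
    exact F.D_le_Dall _ ⟨_, rfl⟩

theorem Sys.exists_lifts {P : Type u} [AddCommGroup P] [Module R P] (f : P →ₗ[R] F.L B)
    (u : (∀ a, B a) → F.S →ₗ[R] P) (hu : ∀ b x, f (u b x) = F.io b x)
    (hE : ∀ a, F.Ext (LinearMap.ker f) a) :
    ∃ V : J → (∀ a, B a) → F.S →ₗ[R] P,
      (∀ a b x, x ∈ F.D a → f (V a b x) = F.io b x) ∧
      (∀ a c b x, c ≤ a → x ∈ F.D c → V a b x = V c b x) ∧
      ∀ a b b', agree b b' a → V a b = V a b' := by
  let V : J → (∀ a, B a) → F.S →ₗ[R] P :=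
    (wellFounded_lt (α := J)).fix (C := fun _ => (∀ a, B a) → F.S →ₗ[R] P) fun a W b =>
      Classical.epsilon fun v : F.S →ₗ[R] P => (∀ x, x ∈ F.D a → f (v x) = F.io b x) ∧
        ∀ c (h : c < a) x, x ∈ F.D c → v x = W c h b x
  have hV : ∀ a b, V a b = Classical.epsilon fun v : F.S →ₗ[R] P =>
      (∀ x, x ∈ F.D a → f (v x) = F.io b x) ∧ ∀ c, c < a → ∀ x, x ∈ F.D c → v x = V c b x :=
    fun a b => by
      simp only [V]
      rw [WellFounded.fix_eq]
  clear_value V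
  have spec : ∀ b a, (∀ x, x ∈ F.D a → f (V a b x) = F.io b x) ∧
      ∀ c, c < a → ∀ x, x ∈ F.D c → V a b x = V c b x := by
    intro b a
    induction a using WellFoundedLT.induction with
    | ind a ih =>
    rw [hV]
    refine Classical.epsilon_spec (p := fun v : F.S →ₗ[R] P =>
      (∀ x, x ∈ F.D a → f (v x) = F.io b x) ∧ ∀ c, c < a → ∀ x, x ∈ F.D c → v x = V c b x) ?_
    obtain ⟨ψ, hψ⟩ : ∃ ψ : F.Dlt a →ₗ[R] P, ∀ (i : Set.Iio a) (x : F.Dlt a),
        (x : F.S) ∈ F.D i → ψ x = (V i b - u b) x := by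
      refine glue (fun c : Set.Iio a => F.D c) (Monotone.directed_le fun _ _ h => F.D_mono h)
        (fun c => V c b - u b) fun i j x hi hj => ?_
      rw [LinearMap.sub_apply, LinearMap.sub_apply]
      rcases lt_trichotomy (i : J) j with h | h | h
      · rw [(ih j j.2).2 i h x hi]
      · rw [h]
      · rw [(ih i i.2).2 j h x hj]
    have hk : ∀ x, ψ x ∈ LinearMap.ker f := by
      intro x
      rcases F.mem_Dlt x.2 with h | ⟨c, hc, hx⟩
      · rw [show x = 0 from Subtype.ext h, map_zero]; exact zero_mem _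
      · rw [LinearMap.mem_ker, hψ ⟨c, hc⟩ x hx, LinearMap.sub_apply, map_sub, (ih c hc).1 _ hx, hu,
          sub_self]
    obtain ⟨ψ', hψ'⟩ := hE a (ψ.codRestrict _ hk)
    refine ⟨u b + (LinearMap.ker f).subtype ∘ₗ ψ', fun x _ => ?_, fun c hc x hx => ?_⟩
    · change f (u b x + ψ' x) = _
      rw [map_add, hu, (ψ' x).2, add_zero]
    · change u b x + ψ' x = _
      have h1 := hψ' ⟨x, F.D_le_Dlt hc hx⟩
      have h2 := hψ ⟨c, hc⟩ ⟨x, F.D_le_Dlt hc hx⟩ hx
      have h3 : (ψ' x : P) = V c b x - u b x := by rw [h1]; exact h2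
      rw [h3, add_sub_cancel]
  refine ⟨V, fun a b => (spec b a).1, fun a c b x h hx => ?_, fun a => ?_⟩
  · rcases h.eq_or_lt with h | h
    · rw [h]
    · exact (spec b a).2 c h x hx
  · induction a using WellFoundedLT.induction with
    | ind a ih =>
    intro b b' hb
    rw [hV, hV]
    congr 1
    funext v
    refine propext (and_congr (forall₂_congr fun x hx => ?_) (forall₂_congr fun c hc => ?_))
    · rw [F.io_eq hx hb]
    · rw [ih c hc b b' fun d hd => hb d (hd.trans hc)]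

variable (J) in
theorem exists_branching (μ : Cardinal.{u}) :
    ∃ B : J → Type u, ∀ a, μ + #(∀ c : Set.Iio a, B c.1) < #(B a) := by
  let c : J → Cardinal.{u} := (wellFounded_lt (α := J)).fix (C := fun _ => Cardinal.{u})
    fun a W => Order.succ (μ + prod fun d : Set.Iio a => W d d.2)
  have hc : ∀ a, c a = Order.succ (μ + prod fun d : Set.Iio a => c d) := fun a =>
    WellFounded.fix_eq _ _ a
  refine ⟨fun a => (c a).out, fun a => ?_⟩
  rw [mk_pi, mk_out, hc a]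
  simp only [mk_out]
  exact Order.lt_succ _

/-- The branch-counting lemma. -/
theorem Sys.core [Nonempty J] (μ : Cardinal.{u}) (hμ : ℵ₀ ≤ μ) (hS : #F.S ≤ μ) :
    ∃ (L : ModuleCat.{u} R) (l : Cardinal.{u}), μ ≤ l ∧
      ∀ (P : ModuleCat.{u} R) (f : P →ₗ[R] L),
        (∀ ι : F.S →ₗ[R] L, ∃ u : F.S →ₗ[R] P, ∀ x, f (u x) = ι x) →
        (∀ a, F.Ext (LinearMap.ker f) a) →
        ∃ A : Set P, #A ≤ l ∧ ∀ P₀ : Set P, #P₀ ≤ l →
          ∃ (u : F.S →ₗ[R] P) (v : F.Dall →ₗ[R] P) (h : P →ₗ[R] F.S),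
            (∀ x, v x ∈ A) ∧ (∀ x : F.Dall, f (u x) = f (v x)) ∧ (∀ x, h (v x) = x) ∧
            ∀ y ∈ P₀, h y ∈ F.Dall := by
  classical
  obtain ⟨B, hB⟩ := exists_branching J μ
  have hne : ∀ a, Nonempty (B a) := fun a =>
    mk_ne_zero_iff.1 ((zero_le.trans_lt (hB a)).ne')
  let l : Cardinal.{u} := sum fun a : J => μ + #(∀ c : Set.Iio a, B c.1)
  have hμl : μ ≤ l := le_self_add.trans
    (le_sum (fun a : J => μ + #(∀ c : Set.Iio a, B c.1)) (Classical.arbitrary J))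
  have hl : ℵ₀ ≤ l := hμ.trans hμl
  have hlt : l < #(∀ a, B a) := by rw [mk_pi]; exact sum_lt_prod _ _ hB
  refine ⟨F.L B, l, hμl, fun P f hlift hE => ?_⟩
  choose u hu using fun b => hlift (F.io b)
  obtain ⟨V, hV1, hV2, hV3⟩ := F.exists_lifts f u hu hE
  let ex : (Σ a : J, ∀ c : Set.Iio a, B c.1) → ∀ a, B a := fun n c =>
    if h : c < n.1 then n.2 ⟨c, h⟩ else Classical.choice (hne c)
  refine ⟨⋃ n : Σ a : J, ∀ c : Set.Iio a, B c.1, Set.range (V n.1 (ex n)), ?_, fun P₀ hP₀ => ?_⟩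
  · refine mk_iUnion_le_of _ hl ?_ fun n => mk_range_le.trans (hS.trans hμl)
    rw [mk_sigma]
    exact sum_le_sum _ _ fun a => le_add_self
  choose rep hrep using fun y : P => (F.rel B).mkQ_surjective (f y)
  obtain ⟨b, hb⟩ : ∃ b, b ∉ ⋃ y : P₀, ((rep y).support : Set (∀ a, B a)) := by
    by_contra hc
    push Not at hc
    have h1 : #(⋃ y : P₀, ((rep y).support : Set (∀ a, B a))) ≤ l :=
      mk_iUnion_le_of _ hl hP₀ fun y => (finset_card_lt_aleph0 _).le.trans hl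
    rw [Set.eq_univ_of_forall hc, mk_univ] at h1
    exact hlt.not_ge h1
  obtain ⟨ρ, hρ1, hρ2⟩ := F.exists_rho b
  obtain ⟨v, hv⟩ : ∃ v : F.Dall →ₗ[R] P, ∀ (i : J) (x : F.Dall), (x : F.S) ∈ F.D i →
      v x = V i b x := by
    refine glue F.D F.D_mono.directed_le (fun a => V a b) fun i j x hi hj => ?_
    rcases le_total i j with h | h
    · exact (hV2 j i b x h hi).symm
    · exact hV2 i j b x h hj
  have hx : ∀ x : F.Dall, ∃ a, (x : F.S) ∈ F.D a := fun x =>
    (Submodule.mem_iSup_of_directed F.D F.D_mono.directed_le).1 x.2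
  have hfv : ∀ x : F.Dall, f (v x) = F.io b x := fun x => by
    obtain ⟨a, ha⟩ := hx x
    rw [hv a x ha, hV1 a b x ha]
  refine ⟨u b, v, ρ ∘ₗ f, fun x => ?_, fun x => by rw [hu, hfv], fun x => ?_, fun y hy => ?_⟩
  · obtain ⟨a, ha⟩ := hx x
    refine Set.mem_iUnion.2 ⟨⟨a, fun c => b c⟩, x, ?_⟩
    rw [hv a x ha, hV3 a b (ex ⟨a, fun c => b c⟩) fun c hc => by simp [ex, hc]]
  · change ρ (f (v x)) = x
    rw [hfv, hρ1]
  · change ρ (f y) ∈ _
    rw [← hrep y]
    exact hρ2 _ fun h => hb (Set.mem_iUnion.2 ⟨⟨y, hy⟩, h⟩)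

end Pool.Agent.Lib.MP_65eb6b_al.EC
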