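import Mathlib
import Pool.Agent.Lib.MP_65eb6b_al.ECDefs
import Pool.Agent.Lib.MP_65eb6b_al.ECTree
import Pool.Agent.Lib.MP_65eb6b_al.ECIwamura

set_option autoImplicit false

/-! Enochs' conjecture for `Add G`. -/

open Cardinal CategoryTheory

universe u

namespace Pool.Agent.Lib.MP_65eb6b_al.EC

variable {R : Type u} [Ring R]

theorem IsCovering.exists_cover {C : ModuleCat.{u} R → Prop} (h : IsCovering C)
    (M : ModuleCat.{u} R) : ∃ (P : ModuleCat.{u} R) (f : P →ₗ[R] M), C P ∧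
      (∀ (Y : ModuleCat.{u} R) (g : Y →ₗ[R] M), C Y → ∃ k : Y →ₗ[R] P, ∀ y, f (k y) = g y) ∧
      ∀ e : P →ₗ[R] P, (∀ x, f (e x) = f x) → Function.Bijective e := by
  obtain ⟨P, f, hP, h1, h2⟩ := h M
  refine ⟨P, f.hom, hP, fun Y g hY => ?_, fun e he => ?_⟩
  · obtain ⟨k, hk⟩ := h1 Y (ModuleCat.ofHom g) hY
    exact ⟨k.hom, fun y => LinearMap.congr_fun (congrArg ModuleCat.Hom.hom hk) y⟩
  · have := h2 (ModuleCat.ofHom e) (ModuleCat.hom_ext (LinearMap.ext he))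
    exact (ConcreteCategory.isIso_iff_bijective (ModuleCat.ofHom e)).1 this

theorem IsSummand.exists_maps {X Y : ModuleCat.{u} R} (h : IsSummand X Y) :
    ∃ (i : X →ₗ[R] Y) (e : Y →ₗ[R] X), ∀ x, e (i x) = x := by
  obtain ⟨i, e, h⟩ := h
  exact ⟨i.hom, e.hom, fun y => LinearMap.congr_fun (congrArg ModuleCat.Hom.hom h) y⟩

theorem chain_ind (Φ : ∀ (K : Type u) [LinearOrder K], Sys R K → Prop)
    (step : ∀ (K : Type u) [LinearOrder K] [WellFoundedLT K] (F : Sys R K),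
      (∀ m, Φ (Set.Iio m) (F.below m)) → Φ K F)
    (K : Type u) [LinearOrder K] [WellFoundedLT K] (F : Sys R K) : Φ K F := by
  suffices h : ∀ (o : Ordinal.{u}) (K : Type u) [LinearOrder K] [WellFoundedLT K] (F : Sys R K),
      Ordinal.type (α := K) (· < ·) = o → Φ K F from h _ K F rfl
  intro o
  induction o using WellFoundedLT.induction with
  | ind o ih =>
  intro K _ _ F hK
  refine step K F fun m => ih _ ?_ _ _ rfl
  rw [Ordinal.type_Iio_lt, ← hK]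
  exact Ordinal.typein_lt_type _ _

theorem Sys.lift_sum {J : Type u} [LinearOrder J] (F : Sys R J) {P L : ModuleCat.{u} R}
    (f : P →ₗ[R] L) (h : ∀ j (g : F.X j →ₗ[R] L), ∃ k : F.X j →ₗ[R] P, ∀ y, f (k y) = g y)
    (ι : F.S →ₗ[R] L) : ∃ u : F.S →ₗ[R] P, ∀ x, f (u x) = ι x := by
  choose k hk using fun j => h j (ι ∘ₗ F.inc j)
  refine ⟨F.desc k, LinearMap.congr_fun (F.hom_ext (φ := f ∘ₗ F.desc k) fun j x => ?_)⟩
  change f (F.desc k _) = _
  rw [F.desc_inc, hk]; rfl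

/-- A small set in a member of `Add G` is fixed by an endomorphism with small range. -/
theorem InAdd.small {G P : ModuleCat.{u} R} (hP : InAdd G P) {l : Cardinal.{u}} (hl : ℵ₀ ≤ l)
    (hR : #R ≤ l) (hG : #G ≤ l) (A : Set P) (hA : #A ≤ l) :
    ∃ π : P →ₗ[R] P, (∀ a ∈ A, π a = a) ∧ #(Set.range π) ≤ l := by
  classical
  obtain ⟨I, hI⟩ := hP
  obtain ⟨i, e, hie⟩ := hI.exists_maps
  let i' : P →ₗ[R] (I →₀ G) := i
  let e' : (I →₀ G) →ₗ[R] P := e
  let I₀ : Set I := ⋃ a : A, ((i' a).support : Set I)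
  have hI₀ : #I₀ ≤ l := mk_iUnion_le_of _ hl hA fun y => (finset_card_lt_aleph0 _).le.trans hl
  let T : Set (I →₀ G) := Set.range fun p : I₀ × G => Finsupp.single (p.1 : I) p.2
  have hT : #T ≤ l := by
    refine mk_range_le.trans ?_
    rw [mk_prod, lift_id, lift_id]
    calc #I₀ * #G ≤ l * l := by gcongr
      _ = l := mul_eq_self hl
  refine ⟨e' ∘ₗ (Finsupp.supported G R I₀).subtype ∘ₗ Finsupp.restrictDom G R I₀ ∘ₗ i',
    fun a ha => ?_, ?_⟩
  · change e' (Finsupp.filter (· ∈ I₀) (i' a)) = a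
    rw [(Finsupp.filter_eq_self_iff _ _).2 fun j hj =>
      Set.mem_iUnion.2 ⟨⟨a, ha⟩, Finsupp.mem_support_iff.2 hj⟩]
    exact hie a
  · refine le_trans (mk_le_mk_of_subset (t := e' '' (Submodule.span R T : Set (I →₀ G))) ?_)
      (mk_image_le.trans (mk_span_le_of T hl hR hT))
    rintro _ ⟨y, rfl⟩
    refine ⟨(Finsupp.restrictDom G R I₀ (i' y) : I →₀ G), ?_, rfl⟩
    have hz := (Finsupp.restrictDom G R I₀ (i' y)).2
    generalize (Finsupp.restrictDom G R I₀ (i' y) : I →₀ G) = z at hz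
    rw [← Finsupp.sum_single z, Finsupp.sum]
    exact Submodule.sum_mem _ fun j hj => Submodule.subset_span ⟨(⟨j, hz hj⟩, z j), rfl⟩

theorem add_step {G : ModuleCat.{u} R} (hcov : IsCovering (InAdd G)) {J : Type u} [LinearOrder J]
    [WellFoundedLT J] [Nonempty J] (F : Sys R J) (hF : ∀ j, InAdd G (F.X j))
    (hE : ∀ (K : Type u) [AddCommGroup K] [Module R K] (a : J), F.Ext K a)
    (M : ModuleCat.{u} R) (g : ∀ j, F.X j →ₗ[R] M) (hg : IsDL F M g) :
    ∃ σ : M →ₗ[R] F.S, ∀ m, F.desc g (σ m) = m := by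
  obtain ⟨L, l, hμ, hcore⟩ := F.core (max (max ℵ₀ #F.S) (max #R #G))
    ((le_max_left _ _).trans (le_max_left _ _)) ((le_max_right _ _).trans (le_max_left _ _))
  simp only [max_le_iff] at hμ
  obtain ⟨P, f, hP, hpre, hmin⟩ := hcov.exists_cover L
  obtain ⟨A, hA, hcore⟩ := hcore P f (F.lift_sum f fun j k => hpre _ k (hF j)) fun a => hE _ a
  obtain ⟨π, hπA, hπ⟩ := hP.small hμ.1.1 hμ.2.1 hμ.2.2 A hA
  obtain ⟨u, v, h, hv, huv, hhv, hh⟩ := hcore _ hπ
  let h' : P →ₗ[R] F.Dall := (h ∘ₗ π).codRestrict _ fun y => hh _ ⟨y, rfl⟩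
  let w : F.Dall →ₗ[R] P := u ∘ₗ F.Dall.subtype - v
  have h1 := bij_swap w h' (hmin _ fun x => by
    change f (x + (u (h' x) - v (h' x))) = f x
    rw [map_add, map_sub, huv, sub_self, add_zero])
  have h2 : ∀ x : F.Dall, (LinearMap.id + h' ∘ₗ w : F.Dall →ₗ[R] F.Dall) x = h' (u x) := by
    intro x
    have : h' (v x) = x := Subtype.ext (by
      change h (π (v x)) = x
      rw [hπA _ (hv x), hhv])
    change x + h' (u x - v x) = _
    rw [map_sub, this, add_sub_cancel]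
  let α := LinearEquiv.ofBijective _ h1
  let ϱ : F.S →ₗ[R] F.S := F.Dall.subtype ∘ₗ α.symm.toLinearMap ∘ₗ h' ∘ₗ u
  have hϱ : ∀ x : F.Dall, ϱ x = x := fun x => by
    change (α.symm (h' (u x)) : F.S) = x
    rw [← h2]
    exact congrArg Subtype.val (α.symm_apply_apply x)
  obtain ⟨σ, hσ⟩ := descend (F.desc g) hg.desc_surj (LinearMap.id - ϱ) fun x hx => by
    change x - ϱ x = 0
    rw [hϱ ⟨x, (hg.desc_eq_zero x).1 hx⟩, sub_self]
  refine ⟨σ, fun m => ?_⟩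
  obtain ⟨x, rfl⟩ := hg.desc_surj m
  rw [hσ]
  change F.desc g (x - ϱ x) = _
  rw [map_sub, (hg.desc_eq_zero (ϱ x)).2 (α.symm (h' (u x))).2, sub_zero]

theorem add_chain {G : ModuleCat.{u} R} (hcov : IsCovering (InAdd G)) (J : Type u) [LinearOrder J]
    [WellFoundedLT J] (F : Sys R J) : Nonempty J → (∀ j, InAdd G (F.X j)) →
      ∀ (M : ModuleCat.{u} R) (g : ∀ j, F.X j →ₗ[R] M), IsDL F M g →
        ∃ σ : M →ₗ[R] F.S, ∀ m, F.desc g (σ m) = m := by
  refine chain_ind (fun J _ F => Nonempty J → (∀ j, InAdd G (F.X j)) →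
      ∀ (M : ModuleCat.{u} R) (g : ∀ j, F.X j →ₗ[R] M), IsDL F M g →
        ∃ σ : M →ₗ[R] F.S, ∀ m, F.desc g (σ m) = m) ?_ J F
  intro J _ _ F ih _ hF M g hg
  refine add_step hcov F hF (fun K _ _ a => ?_) M g hg
  rcases isEmpty_or_nonempty (Set.Iio a) with h | h
  · exact F.ext_of_isEmpty K a
  obtain ⟨σ, hσ⟩ := ih a h (fun j => hF j) _ _ (F.isDL_Q a)
  refine F.ext_of K a fun ψ => ?_
  have hex : Function.Exact (F.ilt a) (LinearMap.range (F.ilt a)).mkQ :=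
    LinearMap.exact_map_mkQ_range _
  have hsplit : (∃ l, (LinearMap.range (F.ilt a)).mkQ ∘ₗ l = LinearMap.id) ↔
      ∃ l, l ∘ₗ F.ilt a = LinearMap.id :=
    (hex.split_tfae (Submodule.inclusion_injective _) (Submodule.mkQ_surjective _)).out 0 1
  obtain ⟨r, hr⟩ := hsplit.1 ⟨(F.below a).desc (F.kap a) ∘ₗ σ, LinearMap.ext fun m => by
      have := LinearMap.congr_fun ((F.below a).hom_ext
        (φ := (LinearMap.range (F.ilt a)).mkQ ∘ₗ (F.below a).desc (F.kap a))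
        (ψ := (F.below a).desc fun b => (LinearMap.range (F.ilt a)).mkQ ∘ₗ F.kap a b)
        fun j x => by
          rw [Sys.desc_inc, LinearMap.comp_apply, Sys.desc_inc]; rfl) (σ m)
      exact this.trans (hσ m)⟩
  exact ⟨ψ ∘ₗ r, fun x => congrArg ψ (LinearMap.congr_fun hr x)⟩

end Pool.Agent.Lib.MP_65eb6b_al.EC
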