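import Mathlib
import Pool.Agent.Lib.MP_65eb6b_al.ECAdd

set_option autoImplicit false

/-! Passage to functors and colimit cocones. -/

open Cardinal CategoryTheory

universe u

namespace Pool.Agent.Lib.MP_65eb6b_al.EC

variable {R : Type u} [Ring R]

/-- The direct system of a functor on a preorder. -/
abbrev sysOf {J : Type u} [Preorder J] (F : J ⥤ ModuleCat.{u} R) : Sys R J where
  X := F.obj
  t _ _ h := (F.map (homOfLE h)).hom
  t_self i x := by
    have : F.map (homOfLE (le_refl i)) = 𝟙 _ := F.map_id i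
    rw [this]; rfl
  t_t i j k hij hjk x := by
    have : F.map (homOfLE (hij.trans hjk)) = F.map (homOfLE hij) ≫ F.map (homOfLE hjk) :=
      F.map_comp (homOfLE hij) (homOfLE hjk)
    rw [this]; rfl

theorem isDL_of_isColimit {J : Type u} [Preorder J] [IsDirected J (· ≤ ·)] [Nonempty J]
    (F : J ⥤ ModuleCat.{u} R) (c : Limits.Cocone F) (hc : Limits.IsColimit c) :
    IsDL (sysOf F) c.pt fun j => (c.ι.app j).hom := by
  refine ⟨fun i j h x => ?_, fun m => ?_, fun j x hx => ?_⟩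
  · exact LinearMap.congr_fun (congrArg ModuleCat.Hom.hom (c.w (homOfLE h))) x
  · exact Limits.Concrete.isColimit_exists_rep F hc m
  · obtain ⟨k, f, g, h⟩ := Limits.Concrete.isColimit_exists_of_rep_eq F hc x (0 : F.obj j)
      (hx.trans (map_zero (c.ι.app j).hom).symm)
    exact ⟨k, leOfHom f, h.trans (map_zero (F.map g).hom)⟩

theorem inAdd_of_split {G : ModuleCat.{u} R} {K : Type u} [LinearOrder K] (F : Sys R K)
    (hF : ∀ k, InAdd G (F.X k)) (N : ModuleCat.{u} R) (γ : ∀ k, F.X k →ₗ[R] N)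
    (σ : N →ₗ[R] F.S) (hσ : ∀ m, F.desc γ (σ m) = m) : InAdd G N := by
  choose I hI using hF
  choose i e hie using fun k => (hI k).exists_maps
  let i' : ∀ k, F.X k →ₗ[R] (I k →₀ G) := i
  let e' : ∀ k, (I k →₀ G) →ₗ[R] F.X k := e
  let ι : F.S →ₗ[R] ((Σ k, I k) →₀ G) :=
    F.desc fun k => Finsupp.lmapDomain G R (Sigma.mk k) ∘ₗ i' k
  let ε : ((Σ k, I k) →₀ G) →ₗ[R] N :=
    Finsupp.lsum ℕ fun p => γ p.1 ∘ₗ e' p.1 ∘ₗ Finsupp.lsingle p.2
  have h1 : ∀ k, ε ∘ₗ Finsupp.lmapDomain G R (Sigma.mk k) = γ k ∘ₗ e' k := fun k =>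
    Finsupp.lhom_ext fun a x => by simp [ε]
  have h2 : ε ∘ₗ ι = F.desc γ := F.hom_ext fun k x => by
    rw [F.desc_inc, LinearMap.comp_apply, F.desc_inc]
    exact (LinearMap.congr_fun (h1 k) (i' k x)).trans (congrArg (γ k) (hie k x))
  refine ⟨Σ k, I k, ModuleCat.ofHom (ι ∘ₗ σ), ModuleCat.ofHom ε, ModuleCat.hom_ext ?_⟩
  exact LinearMap.ext fun m => (LinearMap.congr_fun h2 (σ m)).trans (hσ m)

theorem add_main {G : ModuleCat.{u} R} (hcov : IsCovering (InAdd G))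
    {J : Type u} [Preorder J] [IsDirected J (· ≤ ·)] [Nonempty J] (F : J ⥤ ModuleCat.{u} R)
    (hF : ∀ j, InAdd G (F.obj j)) (c : Limits.Cocone F) (hc : Limits.IsColimit c) :
    InAdd G c.pt ∧
      ∃ s : c.pt ⟶ ∐ F.obj, s ≫ Limits.Sigma.desc (fun j => c.ι.app j) = 𝟙 c.pt := by
  let p : (∐ F.obj : ModuleCat.{u} R) ⟶ c.pt := Limits.Sigma.desc fun j => c.ι.app j
  have key := iwamura c.pt
    (fun N φ => InAdd G N ∧ ∃ k : N →ₗ[R] (∐ F.obj : ModuleCat.{u} R), ∀ n, p.hom (k n) = φ n)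
    (fun K _ _ hK H N γ hγ φ hQ => by
      obtain ⟨σ, hσ⟩ := add_chain hcov K H hK (fun k => (hQ k).1) N γ hγ
      refine ⟨inAdd_of_split H (fun k => (hQ k).1) N γ σ hσ, ?_⟩
      choose k hk using fun k => (hQ k).2
      refine ⟨H.desc k ∘ₗ σ, fun n => ?_⟩
      have := H.hom_ext (φ := p.hom ∘ₗ H.desc k) (ψ := φ ∘ₗ H.desc γ) fun j x => by
        rw [LinearMap.comp_apply, LinearMap.comp_apply, H.desc_inc, H.desc_inc, hk]; rfl
      exact (LinearMap.congr_fun this (σ n)).trans (congrArg φ (hσ n)))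
    (sysOf F) (fun j => (c.ι.app j).hom) (isDL_of_isColimit F c hc) fun j =>
      ⟨hF j, (Limits.Sigma.ι F.obj j).hom, fun n =>
        LinearMap.congr_fun (congrArg ModuleCat.Hom.hom
          (Limits.Sigma.ι_desc (fun j => c.ι.app j) j)) n⟩
  obtain ⟨h, k, hk⟩ := key
  exact ⟨h, ModuleCat.ofHom k, ModuleCat.hom_ext (LinearMap.ext hk)⟩

end Pool.Agent.Lib.MP_65eb6b_al.EC
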