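import Mathlib
import Pool.Agent.Lib.MP_65eb6b_al.ECCat

set_option autoImplicit false

/-! Extension of maps along filtrations: the lemmas of Eklof, Hill and Wakamatsu. -/

open Cardinal CategoryTheory

universe u

namespace Pool.Agent.Lib.MP_65eb6b_al.EC

variable {R : Type u} [Ring R]

/-- Every map to `K` extends along every monomorphism with cokernel `Q`. -/
def Inj (R : Type u) [Ring R] (K Q : Type u) [AddCommGroup K] [Module R K] [AddCommGroup Q]
    [Module R Q] : Prop :=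
  ∀ (A N : Type u) [AddCommGroup A] [Module R A] [AddCommGroup N] [Module R N]
    (i : N →ₗ[R] A) (q : A →ₗ[R] Q), Function.Injective i → Function.Surjective q →
    Function.Exact i q → ∀ ψ : N →ₗ[R] K, ∃ ψ' : A →ₗ[R] K, ∀ n, ψ' (i n) = ψ n

theorem isFiltered_iff {ι : Type u} (S : ι → ModuleCat.{u} R) (P : ModuleCat.{u} R) :
    IsFiltered S P ↔ ∃ (I : Type u) (_ : LinearOrder I) (_ : WellFoundedLT I)
      (N : I → Submodule R P), Monotone N ∧ ⨆ i, N i = ⊤ ∧ ∀ i, ∃ (s : ι) (φ : N i →ₗ[R] S s),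
        Function.Surjective φ ∧ ∀ x, φ x = 0 ↔ (x : P) ∈ ⨆ j ∈ Set.Iio i, N j := by
  refine exists₄_congr fun I _ _ N => and_congr_right fun _ => and_congr_right fun _ =>
    forall_congr' fun i => exists_congr fun s => ⟨?_, ?_⟩
  · rintro ⟨e⟩
    refine ⟨e.toLinearMap ∘ₗ Submodule.mkQ _, e.surjective.comp (Submodule.mkQ_surjective _),
      fun x => ?_⟩
    change e (Submodule.Quotient.mk x) = 0 ↔ _
    rw [e.map_eq_zero_iff, Submodule.Quotient.mk_eq_zero]; rfl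
  · rintro ⟨φ, h1, h2⟩
    exact ⟨(Submodule.quotEquivOfEq _ (LinearMap.ker φ) (by ext x; exact (h2 x).symm)).trans
      (φ.quotKerEquivOfSurjective h1)⟩

section
variable {A K : Type u} [AddCommGroup A] [Module R A] [AddCommGroup K] [Module R K]

theorem ext_chain {I : Type u} [LinearOrder I] [WellFoundedLT I] (N : I → Submodule R A)
    (hN : Monotone N) (B : Submodule R A) (htop : B ⊔ ⨆ i, N i = ⊤)
    (step : ∀ i (φ : A →ₗ.[R] K), φ.domain = B ⊔ ⨆ j ∈ Set.Iio i, N j →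
      ∃ φ', φ ≤ φ' ∧ φ'.domain = B ⊔ N i)
    (ψ : B →ₗ[R] K) : ∃ ψ' : A →ₗ[R] K, ∀ x : B, ψ' x = ψ x := by
  let Z : Set (A →ₗ.[R] K) := {φ | φ.domain ≤ B ⊔ ⨆ j ∈ {j | N j ≤ φ.domain}, N j}
  obtain ⟨m, hm0, hm⟩ := zorn_le_nonempty₀ Z (fun c hc hch y hy => by
    refine ⟨LinearPMap.sSup c hch.directedOn, ?_, fun z hz => LinearPMap.le_sSup _ hz⟩
    intro x hx
    obtain ⟨φ, hφ, hx⟩ := (LinearPMap.mem_domain_sSup_iff ⟨y, hy⟩ hch.directedOn).1 hx
    refine sup_le_sup_left (biSup_mono fun j hj => ?_) B (hc hφ hx)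
    exact le_trans hj (LinearPMap.le_sSup hch.directedOn hφ).1) ⟨B, ψ⟩
    (show B ≤ B ⊔ _ from le_sup_left)
  have hB : B ≤ m.domain := hm0.1
  have hall : ∀ i, N i ≤ m.domain := by
    intro i
    induction i using WellFoundedLT.induction with
    | ind i ih =>
    by_contra hi
    obtain ⟨φ', h1, h2⟩ := step i m (le_antisymm
      (hm.prop.trans (sup_le_sup_left (biSup_mono fun j hj =>
        not_le.1 fun hij => hi ((hN hij).trans hj)) B))
      (sup_le hB (iSup₂_le ih)))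
    have h3 : φ' ∈ Z := by
      change φ'.domain ≤ B ⊔ ⨆ j ∈ {j | N j ≤ φ'.domain}, N j
      rw [h2]
      exact sup_le_sup_left (le_iSup₂ (f := fun j (_ : j ∈ {j | N j ≤ B ⊔ N i}) => N j) i
        (show N i ≤ B ⊔ N i from le_sup_right)) B
    exact hi (le_sup_right.trans (h2.ge.trans (hm.le_of_ge h3 h1).1))
  have hd : ∀ x, x ∈ m.domain := fun x =>
    (htop.ge.trans (sup_le hB (iSup_le hall))) Submodule.mem_top
  exact ⟨m.toFun ∘ₗ LinearMap.id.codRestrict _ hd, fun x => (hm0.2 (x := x) rfl).symm⟩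

theorem step_of {Q : Type u} [AddCommGroup Q] [Module R Q] (hK : Inj R K Q) (V W : Submodule R A)
    (hWV : W ≤ V) (q : V →ₗ[R] Q) (hq : Function.Surjective q) (hker : ∀ x, q x = 0 ↔ (x : A) ∈ W)
    (φ : A →ₗ.[R] K) (h1 : W ≤ φ.domain) (h2 : φ.domain ⊓ V ≤ W) :
    ∃ φ', φ ≤ φ' ∧ φ'.domain = φ.domain ⊔ V := by
  obtain ⟨ψ, hψ⟩ := hK V W (Submodule.inclusion hWV) q (Submodule.inclusion_injective _) hq
    (fun x => (hker x).trans ⟨fun h => ⟨⟨x, h⟩, rfl⟩, by rintro ⟨y, rfl⟩; exact y.2⟩)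
    (φ.toFun ∘ₗ Submodule.inclusion h1)
  refine ⟨φ.sup ⟨V, ψ⟩ ?_, LinearPMap.left_le_sup _ _ _, rfl⟩
  rintro ⟨x, hx⟩ ⟨y, hy⟩ rfl
  exact (hψ ⟨x, h2 ⟨hx, hy⟩⟩).symm

theorem Inj.of_summand {Q Q' : Type u} [AddCommGroup Q] [Module R Q] [AddCommGroup Q']
    [Module R Q'] (h : Inj R K Q') (i : Q →ₗ[R] Q') (e : Q' →ₗ[R] Q) (hie : ∀ x, e (i x) = x) :
    Inj R K Q := by
  intro A N _ _ _ _ j q hj hq hex ψ
  let A' : Submodule R (A × Q') :=
    LinearMap.ker (q ∘ₗ LinearMap.fst R A Q' - e ∘ₗ LinearMap.snd R A Q')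
  have hA' : ∀ z : A × Q', z ∈ A' ↔ q z.1 = e z.2 := fun z => sub_eq_zero
  have h0 : ∀ n, q (j n) = 0 := hex.apply_apply_eq_zero
  obtain ⟨ψ', hψ'⟩ := h A' N
    ((LinearMap.inl R A Q' ∘ₗ j).codRestrict A' fun n => (hA' _).2 (by simp [h0]))
    (LinearMap.snd R A Q' ∘ₗ A'.subtype)
    (fun a b hab => hj (congrArg (fun z : A' => z.1.1) hab))
    (fun z => by
      obtain ⟨a, ha⟩ := hq (e z)
      exact ⟨⟨(a, z), (hA' _).2 ha⟩, rfl⟩)
    (fun z => by
      constructor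
      · intro hz
        have hz' : z.1.2 = 0 := hz
        obtain ⟨n, hn⟩ := (hex z.1.1).1 (by rw [(hA' _).1 z.2, hz', map_zero])
        exact ⟨n, Subtype.ext (Prod.ext hn hz'.symm)⟩
      · rintro ⟨n, rfl⟩; rfl) ψ
  refine ⟨ψ' ∘ₗ (LinearMap.id.prod (i ∘ₗ q)).codRestrict A' fun a => (hA' _).2 (hie _).symm,
    fun n => ?_⟩
  rw [← hψ']
  exact congrArg ψ' (Subtype.ext (Prod.ext rfl (by simp [h0])))

/-- Eklof's lemma. -/
theorem Inj.of_filtered {ι : Type u} {S : ι → ModuleCat.{u} R} (hK : ∀ s, Inj R K (S s))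
    {P : ModuleCat.{u} R} (hP : IsFiltered S P) : Inj R K P := by
  obtain ⟨I, _, _, N, hN, htop, hstep⟩ := (isFiltered_iff S P).1 hP
  intro A M _ _ _ _ j q hj hq hex ψ
  have hker : LinearMap.ker q = LinearMap.range j := LinearMap.exact_iff.1 hex
  have hsup : ∀ σ : Set I, LinearMap.range j ⊔ ⨆ k ∈ σ, (N k).comap q = (⨆ k ∈ σ, N k).comap q := by
    intro σ
    rw [← hker, sup_comm, ← Submodule.comap_map_eq]
    simp only [Submodule.map_iSup, Submodule.map_comap_eq_of_surjective hq]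
  obtain ⟨ψ', hψ'⟩ := ext_chain (fun k => (N k).comap q) (fun _ _ h => Submodule.comap_mono (hN h))
    (LinearMap.range j) (by simpa [htop] using hsup Set.univ) (fun i φ hφ => by
      obtain ⟨s, χ, h1, h2⟩ := hstep i
      rw [hsup] at hφ
      have hle : ⨆ k ∈ Set.Iio i, N k ≤ N i := iSup₂_le fun k hk => hN (le_of_lt hk)
      obtain ⟨φ', h3, h4⟩ := step_of (hK s) ((N i).comap q) ((⨆ k ∈ Set.Iio i, N k).comap q)
        (Submodule.comap_mono hle) (χ ∘ₗ q.restrict fun _ hx => hx)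
        (h1.comp fun ⟨y, hy⟩ => by
          obtain ⟨x, rfl⟩ := hq y
          exact ⟨⟨x, hy⟩, rfl⟩)
        (fun x => h2 _) φ hφ.ge (inf_le_left.trans hφ.le)
      refine ⟨φ', h3, ?_⟩
      rw [h4, hφ, sup_eq_right.2 (Submodule.comap_mono hle), sup_eq_right.2]
      rw [← hker]
      exact Submodule.comap_mono (f := q) bot_le)
    (ψ ∘ₗ (LinearEquiv.ofInjective j hj).symm.toLinearMap)
  refine ⟨ψ', fun n => (hψ' ⟨j n, n, rfl⟩).trans (congrArg ψ ?_)⟩
  exact (LinearEquiv.ofInjective j hj).symm_apply_apply n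

end

theorem IsFiltered.ext {ι : Type u} {S : ι → ModuleCat.{u} R} {P : ModuleCat.{u} R}
    (hP : IsFiltered S P) (E : ModuleCat.{u} R) (s : ι) (j : P →ₗ[R] E) (q : E →ₗ[R] S s)
    (hj : Function.Injective j) (hq : Function.Surjective q) (hex : Function.Exact j q) :
    IsFiltered S E := by
  obtain ⟨I, _, _, N, hN, htop, hstep⟩ := (isFiltered_iff S P).1 hP
  let N' : WithTop I → Submodule R E := fun k => WithTop.recTopCoe ⊤ (fun i => (N i).map j) k
  have hlt : ∀ k : WithTop I,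
      ⨆ l ∈ Set.Iio k, N' l = (⨆ i ∈ {i : I | (i : WithTop I) < k}, N i).map j := by
    intro k
    simp only [Submodule.map_iSup]
    refine le_antisymm (iSup₂_le fun l hl => ?_) (iSup₂_le fun i hi =>
      le_iSup₂ (f := fun l (_ : l ∈ Set.Iio k) => N' l) (i : WithTop I) hi)
    induction l using WithTop.recTopCoe with
    | top => exact (not_top_lt (Set.mem_Iio.1 hl)).elim
    | coe i =>
      exact le_iSup₂ (f := fun i (_ : i ∈ {i : I | (i : WithTop I) < k}) => (N i).map j) i hl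
  refine (isFiltered_iff S E).2 ⟨WithTop I, inferInstance, inferInstance, N', ?_,
    top_le_iff.1 (le_iSup N' ⊤), fun k => ?_⟩
  · intro k l hkl
    induction l using WithTop.recTopCoe with
    | top => exact le_top
    | coe l =>
      induction k using WithTop.recTopCoe with
      | top => exact (WithTop.not_top_le_coe _ hkl).elim
      | coe k => exact Submodule.map_mono (hN (WithTop.coe_le_coe.1 hkl))
  · rw [hlt]
    induction k using WithTop.recTopCoe with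
    | top =>
      refine ⟨s, q ∘ₗ Submodule.subtype _, fun y => ?_, fun x => ?_⟩
      · obtain ⟨x, rfl⟩ := hq y
        exact ⟨⟨x, Submodule.mem_top⟩, rfl⟩
      · simp only [WithTop.coe_lt_top, Set.ofPred_true, Set.mem_univ, iSup_pos, htop,
          Submodule.map_top]
        exact hex _
    | coe i =>
      obtain ⟨t, χ, h1, h2⟩ := hstep i
      refine ⟨t, χ ∘ₗ (Submodule.equivMapOfInjective j hj (N i)).symm.toLinearMap,
        h1.comp (Submodule.equivMapOfInjective j hj (N i)).symm.surjective, fun x => ?_⟩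
      obtain ⟨y, rfl⟩ := (Submodule.equivMapOfInjective j hj (N i)).surjective x
      have : {l : I | (l : WithTop I) < i} = Set.Iio i := by ext l; simp
      rw [this]
      change χ ((Submodule.equivMapOfInjective j hj (N i)).symm _) = 0 ↔ j y ∈ _
      rw [LinearEquiv.symm_apply_apply, h2]
      exact ⟨Submodule.mem_map_of_mem, fun ⟨z, hz, hzy⟩ => hj hzy ▸ hz⟩

/-- Wakamatsu's lemma in the form needed here. -/
theorem inj_ker {ι : Type u} {S : ι → ModuleCat.{u} R} {P P' L : ModuleCat.{u} R}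
    (hP' : IsFiltered S P') (hP : IsSummand P P') (f : P →ₗ[R] L)
    (hpre : ∀ (Y : ModuleCat.{u} R) (g : Y →ₗ[R] L), IsFiltered S Y →
      ∃ k : Y →ₗ[R] P, ∀ y, f (k y) = g y)
    (hmin : ∀ e : P →ₗ[R] P, (∀ x, f (e x) = f x) → Function.Bijective e) (s : ι) :
    Inj R (LinearMap.ker f) (S s) := by
  obtain ⟨i, e, hie⟩ := hP.exists_maps
  intro A N _ _ _ _ j q hj hq hex ψ
  let W : Submodule R (P' × A) :=
    LinearMap.range ((i ∘ₗ (LinearMap.ker f).subtype ∘ₗ ψ).prod (-j))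
  have h0 : ∀ n, q (j n) = 0 := hex.apply_apply_eq_zero
  have hE : IsFiltered S (ModuleCat.of R ((P' × A) ⧸ W)) := by
    refine hP'.ext _ s (W.mkQ ∘ₗ LinearMap.inl R P' A)
      (W.liftQ (q ∘ₗ LinearMap.snd R P' A) (by rintro _ ⟨n, rfl⟩; simp [h0])) ?_ ?_ ?_
    · rw [injective_iff_map_eq_zero]
      intro x hx
      obtain ⟨n, hn⟩ := (Submodule.Quotient.mk_eq_zero _).1 hx
      have h1 : -j n = 0 := congrArg Prod.snd hn
      have h2 : i (ψ n) = x := congrArg Prod.fst hn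
      rw [← h2, (injective_iff_map_eq_zero j).1 hj n (neg_eq_zero.1 h1)]; simp
    · intro y
      obtain ⟨a, rfl⟩ := hq y
      exact ⟨W.mkQ (0, a), rfl⟩
    · intro z
      obtain ⟨⟨x, a⟩, rfl⟩ := W.mkQ_surjective z
      constructor
      · intro hz
        obtain ⟨n, rfl⟩ := (hex a).1 hz
        exact ⟨x + i (ψ n), (Submodule.Quotient.eq _).2 ⟨n, by simp⟩⟩
      · rintro ⟨y, hy⟩
        rw [← hy]
        exact map_zero q
  obtain ⟨g, hg⟩ := hpre _ (W.liftQ (f ∘ₗ e ∘ₗ LinearMap.fst R P' A) (by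
    rintro _ ⟨n, rfl⟩
    change f (e (i (ψ n))) = 0
    rw [hie]; exact (ψ n).2)) hE
  let g' : ((P' × A) ⧸ W) →ₗ[R] P := g
  have hf0 : ∀ x, f ((g' ∘ₗ W.mkQ ∘ₗ LinearMap.inl R P' A ∘ₗ i) x) = f x := fun x =>
    (hg _).trans (congrArg f (hie x))
  let α := LinearEquiv.ofBijective _ (hmin _ hf0)
  refine ⟨(α.symm.toLinearMap ∘ₗ g' ∘ₗ W.mkQ ∘ₗ LinearMap.inr R P' A).codRestrict _ fun a => ?_,
    fun n => Subtype.ext ?_⟩
  · rw [LinearMap.mem_ker, ← hf0]
    refine (congrArg f (α.apply_symm_apply _)).trans ((hg _).trans ?_)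
    change f (e 0) = 0
    rw [map_zero, map_zero]
  · refine α.symm_apply_eq.2 (congrArg g' ?_)
    exact ((Submodule.Quotient.eq W (x := (i (ψ n), 0)) (y := (0, j n))).2 ⟨n, by simp⟩).symm

end Pool.Agent.Lib.MP_65eb6b_al.EC
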