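import Mathlib
import Pool.Agent.Lib.MP_65eb6b_al.ECInj

set_option autoImplicit false

/-! Enochs' conjecture for classes of filtered modules. -/

open Cardinal CategoryTheory

universe u

namespace Pool.Agent.Lib.MP_65eb6b_al.EC

variable {R : Type u} [Ring R]

theorem exists_closed {I : Type u} (Φ : I → Set I) {l : Cardinal.{u}} (hl : ℵ₀ ≤ l)
    (hΦ : ∀ i, #(Φ i) ≤ l) (σ₀ : Set I) (h₀ : #σ₀ ≤ l) :
    ∃ σ : Set I, σ₀ ⊆ σ ∧ #σ ≤ l ∧ ∀ i ∈ σ, Φ i ⊆ σ := by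
  let τ : ℕ → Set I := fun n => Nat.rec σ₀ (fun _ s => ⋃ i : s, Φ i) n
  have hτ : ∀ n : ℕ, #(↥(τ n : Set I)) ≤ l := by
    intro n
    induction n with
    | zero => exact h₀
    | succ n ih => exact mk_iUnion_le_of _ hl ih fun i => hΦ i
  refine ⟨⋃ n : ULift.{u} ℕ, τ n.down, Set.subset_iUnion (fun n : ULift.{u} ℕ => τ n.down) ⟨0⟩,
    mk_iUnion_le_of _ hl (by simpa using hl) fun n => hτ _, fun i hi j hj => ?_⟩
  obtain ⟨n, hn⟩ := Set.mem_iUnion.1 hi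
  exact Set.mem_iUnion.2 ⟨⟨n.down + 1⟩, Set.mem_iUnion.2 ⟨⟨i, hn⟩, hj⟩⟩

theorem mem_biSup_mono {I P : Type u} [AddCommGroup P] [Module R P] (A : I → Submodule R P)
    {σ τ : Set I} {x : P} (hx : x ∈ ⨆ j ∈ σ, A j) (h : ∀ j, j ∈ σ → j ∈ τ) : x ∈ ⨆ j ∈ τ, A j :=
  (biSup_mono h : ⨆ j ∈ σ, A j ≤ ⨆ j ∈ τ, A j) hx

theorem exists_finset_of_mem {I P : Type u} [AddCommGroup P] [Module R P] (A : I → Submodule R P)
    (σ : Set I) {x : P} (hx : x ∈ ⨆ j ∈ σ, A j) :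
    ∃ t : Finset I, (t : Set I) ⊆ σ ∧ x ∈ ⨆ j ∈ (t : Set I), A j := by
  have hd : Directed (· ≤ ·) fun t : FinSub σ => ⨆ j ∈ (t.1 : Set I), A j :=
    Monotone.directed_le fun s t h => biSup_mono fun j hj => (show s.1 ⊆ t.1 from h) hj
  obtain ⟨t, ht⟩ := (Submodule.mem_iSup_of_directed _ hd).1 ((iSup₂_le fun j hj =>
    le_iSup_of_le (⟨{j}, by simpa using hj⟩ : FinSub σ) (le_biSup A (by simp)) :
      ⨆ j ∈ σ, A j ≤ ⨆ t : FinSub σ, ⨆ j ∈ (t.1 : Set I), A j) hx)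
  exact ⟨t.1, t.2, ht⟩

/-- The part of Hill's lemma needed here. -/
theorem hill {ι : Type u} {S : ι → ModuleCat.{u} R} {P : ModuleCat.{u} R} (hP : IsFiltered S P)
    {l : Cardinal.{u}} (hl : ℵ₀ ≤ l) (hR : #R ≤ l) (hS : ∀ s, #(S s) ≤ l) (Z : Set P)
    (hZ : #Z ≤ l) : ∃ P₀ : Submodule R P, Z ⊆ P₀ ∧ #P₀ ≤ l ∧
      ∀ (K : Type u) [AddCommGroup K] [Module R K], (∀ s, Inj R K (S s)) →
        ∀ ψ : P₀ →ₗ[R] K, ∃ ψ' : P →ₗ[R] K, ∀ x : P₀, ψ' x = ψ x := by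
  obtain ⟨I, _, _, N, hN, htop, hstep⟩ := (isFiltered_iff S P).1 hP
  choose s φ hφ hker using hstep
  choose γ hγ using hφ
  let A : I → Submodule R P := fun i => Submodule.span R (Set.range fun y => (γ i y : P))
  have hAl : ∀ i, #(A i) ≤ l := fun i => mk_span_le_of _ hl hR (mk_range_le.trans (hS _))
  have hAN : ∀ i, A i ≤ N i := fun i => Submodule.span_le.2 (by rintro _ ⟨y, rfl⟩; exact (γ i y).2)
  have hNA : ∀ i, N i ≤ (⨆ j ∈ Set.Iio i, N j) ⊔ A i := by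
    intro i x hx
    have h1 : x - γ i (φ i ⟨x, hx⟩) ∈ ⨆ j ∈ Set.Iio i, N j :=
      (hker i (⟨x, hx⟩ - γ i (φ i ⟨x, hx⟩))).1 (by rw [map_sub, hγ, sub_self])
    have := Submodule.add_mem_sup h1 (show (γ i (φ i ⟨x, hx⟩) : P) ∈ A i from
      Submodule.subset_span ⟨_, rfl⟩)
    rwa [sub_add_cancel] at this
  have hNT : ∀ i, N i ≤ ⨆ j ∈ Set.Iic i, A j := by
    intro i
    induction i using WellFoundedLT.induction with
    | ind i ih =>
    refine (hNA i).trans (sup_le (iSup₂_le fun j hj => (ih j hj).trans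
      (biSup_mono fun k hk => le_trans hk (le_of_lt hj))) (le_biSup A (le_refl i)))
  have ht : ∀ i (x : P), ∃ t : Finset I, x ∈ ⨆ j ∈ Set.Iio i, N j →
      (t : Set I) ⊆ Set.Iio i ∧ x ∈ ⨆ j ∈ (t : Set I), A j := by
    intro i x
    by_cases hx : x ∈ ⨆ j ∈ Set.Iio i, N j
    · obtain ⟨t, h⟩ := exists_finset_of_mem A (Set.Iio i) ((iSup₂_le fun j hj => (hNT j).trans
        (biSup_mono fun k hk => lt_of_le_of_lt hk hj) :
          ⨆ j ∈ Set.Iio i, N j ≤ ⨆ j ∈ Set.Iio i, A j) hx)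
      exact ⟨t, fun _ => h⟩
    · exact ⟨∅, fun h => (hx h).elim⟩
  choose t ht using ht
  have ht' : ∀ x : P, ∃ t : Finset I, x ∈ ⨆ j ∈ (t : Set I), A j := fun x => by
    obtain ⟨t, h⟩ := exists_finset_of_mem A Set.univ (x := x) ((htop.ge.trans (iSup_le fun j =>
      (hNT j).trans (biSup_mono fun k _ => Set.mem_univ k))) Submodule.mem_top)
    exact ⟨t, h.2⟩
  choose t' ht' using ht'
  obtain ⟨σ, hσ0, hσl, hσ⟩ := exists_closed (fun i => ⋃ x : A i, (t i x : Set I)) hl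
    (fun i => mk_iUnion_le_of _ hl (hAl i) fun y => (finset_card_lt_aleph0 _).le.trans hl)
    (⋃ z : Z, (t' z : Set I))
    (mk_iUnion_le_of _ hl hZ fun y => (finset_card_lt_aleph0 _).le.trans hl)
  have hcl : ∀ k ∈ σ, ∀ x ∈ A k, x ∈ ⨆ j ∈ Set.Iio k, N j → x ∈ ⨆ j ∈ σ ∩ Set.Iio k, A j :=
    fun k hk x hx hx' => mem_biSup_mono A (ht k x hx').2 fun j hj =>
      ⟨hσ k hk (Set.mem_iUnion.2 ⟨⟨x, hx⟩, hj⟩), (ht k x hx').1 hj⟩
  have key : ∀ i, i ∉ σ → ∀ k, ∀ x ∈ ⨆ j ∈ σ ∩ Set.Iic k, A j, x ∈ N i →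
      x ∈ ⨆ j ∈ Set.Iio i, N j := by
    intro i hi k
    induction k using WellFoundedLT.induction with
    | ind k ih =>
    intro x hx hxi
    rcases lt_or_ge k i with hki | hik
    · exact (iSup₂_le fun j hj => (hAN j).trans ((hN hj.2).trans (le_biSup N hki)) :
        ⨆ j ∈ σ ∩ Set.Iic k, A j ≤ ⨆ j ∈ Set.Iio i, N j) hx
    have h1 : x ∈ ⨆ j ∈ σ ∩ Set.Iio k, A j := by
      by_cases hk : k ∈ σ
      · have hik' : i < k := lt_of_le_of_ne hik fun h => hi (h ▸ hk)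
        have h2 : ⨆ j ∈ σ ∩ Set.Iic k, A j ≤ (⨆ j ∈ σ ∩ Set.Iio k, A j) ⊔ A k :=
          iSup₂_le fun j hj => by
            rcases (Set.mem_Iic.1 hj.2).eq_or_lt with h | h
            · rw [h]; exact le_sup_right
            · exact le_sup_of_le_left (le_biSup A ⟨hj.1, h⟩)
        obtain ⟨y, hy, a, ha, rfl⟩ := Submodule.mem_sup.1 (h2 hx)
        refine add_mem hy (hcl k hk a ha ?_)
        have h3 : y ∈ ⨆ j ∈ Set.Iio k, N j :=
          (iSup₂_le fun j hj => (hAN j).trans (le_biSup N hj.2) :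
            ⨆ j ∈ σ ∩ Set.Iio k, A j ≤ ⨆ j ∈ Set.Iio k, N j) hy
        have h4 : y + a ∈ ⨆ j ∈ Set.Iio k, N j := le_biSup N (Set.mem_Iio.2 hik') hxi
        simpa using sub_mem h4 h3
      · exact mem_biSup_mono A hx fun j hj => ⟨hj.1, lt_of_le_of_ne hj.2 fun h => hk (h ▸ hj.1)⟩
    obtain ⟨τ, hτ, hx'⟩ := exists_finset_of_mem A _ h1
    rcases τ.eq_empty_or_nonempty with rfl | hne
    · have : x = 0 := by simpa using hx'
      rw [this]; exact zero_mem _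
    · exact ih (τ.max' hne) (hτ (τ.max'_mem hne)).2 x
        (mem_biSup_mono A hx' fun j hj => ⟨(hτ hj).1, τ.le_max' j hj⟩) hxi
  have key' : ∀ i, i ∉ σ → ∀ x ∈ ⨆ j ∈ σ, A j, x ∈ N i → x ∈ ⨆ j ∈ Set.Iio i, N j := by
    intro i hi x hx hxi
    obtain ⟨τ, hτ, hx'⟩ := exists_finset_of_mem A _ hx
    have : Nonempty I := ⟨i⟩
    obtain ⟨k, hk⟩ := Finset.exists_le τ
    exact key i hi k x (mem_biSup_mono A hx' fun j hj => ⟨hτ hj, hk j hj⟩) hxi
  refine ⟨⨆ j ∈ σ, A j, fun z hz => mem_biSup_mono A (ht' z) fun j hj =>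
    hσ0 (Set.mem_iUnion.2 ⟨⟨z, hz⟩, hj⟩), ?_, fun K _ _ hK ψ => ?_⟩
  · refine le_trans (mk_le_mk_of_subset ?_) (mk_span_le_of (R := R) (⋃ j : σ, (A j : Set P)) hl hR
      (mk_iUnion_le_of _ hl hσl fun j => hAl j))
    exact (iSup₂_le fun j hj x hx => Submodule.subset_span (Set.mem_iUnion.2 ⟨⟨j, hj⟩, hx⟩) :
      ⨆ j ∈ σ, A j ≤ Submodule.span R (⋃ j : σ, (A j : Set P)))
  refine ext_chain N hN _ (by rw [htop, sup_top_eq]) (fun i χ hχ => ?_) ψ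
  have hle : ⨆ k ∈ Set.Iio i, N k ≤ N i := iSup₂_le fun k hk => hN (le_of_lt hk)
  by_cases hi : i ∈ σ
  · refine ⟨χ, le_rfl, hχ.trans (le_antisymm (sup_le_sup_left hle _) (sup_le le_sup_left ?_))⟩
    exact (hNA i).trans (sup_le le_sup_right (le_sup_of_le_left (le_biSup A hi)))
  · obtain ⟨χ', h1, h2⟩ := step_of (hK (s i)) (N i) _ hle (φ i) (fun y => ⟨_, hγ i y⟩) (hker i) χ
      (le_sup_right.trans hχ.ge) (by
        rintro x ⟨hx, hxi⟩
        obtain ⟨p, hp, n, hn, rfl⟩ := Submodule.mem_sup.1 (hχ.le hx)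
        refine add_mem (key' i hi p hp ?_) hn
        simpa using sub_mem hxi (hle hn))
    exact ⟨χ', h1, by rw [h2, hχ, sup_assoc, sup_eq_right.2 hle]⟩

theorem filt_step {ι : Type u} {S : ι → ModuleCat.{u} R} {C : ModuleCat.{u} R → Prop}
    (hiso : ∀ X Y : ModuleCat.{u} R, Nonempty (X ≅ Y) → C X → C Y)
    (h1 : ∀ X, IsFiltered S X → C X) (h2 : ∀ X, C X → ∃ P, IsFiltered S P ∧ IsSummand X P)
    (hcov : IsCovering C) {J : Type u} [LinearOrder J] [WellFoundedLT J] [Nonempty J]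
    (F : Sys R J) (hF : ∀ j, C (F.X j)) (hQ : ∀ a, Nonempty (Set.Iio a) → C (F.Q a))
    (M : ModuleCat.{u} R) (g : ∀ j, F.X j →ₗ[R] M) (hg : IsDL F M g) : C M := by
  have hinj : ∀ {P L : ModuleCat.{u} R} (f : P →ₗ[R] L), C P →
      (∀ (Y : ModuleCat.{u} R) (g : Y →ₗ[R] L), C Y → ∃ k : Y →ₗ[R] P, ∀ y, f (k y) = g y) →
      (∀ e : P →ₗ[R] P, (∀ x, f (e x) = f x) → Function.Bijective e) →
      ∀ s, Inj R (LinearMap.ker f) (S s) := fun f hP hpre hmin s => by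
    obtain ⟨P', hP', hs⟩ := h2 _ hP
    exact inj_ker hP' hs f (fun Y g hY => hpre Y g (h1 Y hY)) hmin s
  have hinj' : ∀ (K : Type u) [AddCommGroup K] [Module R K], (∀ s, Inj R K (S s)) →
      ∀ Y, C Y → Inj R K Y := fun K _ _ hK Y hY => by
    obtain ⟨P', hP', hs⟩ := h2 _ hY
    obtain ⟨i, e, hie⟩ := hs.exists_maps
    exact (Inj.of_filtered hK hP').of_summand i e hie
  obtain ⟨L, l, hμ, hcore⟩ := F.core (max (max ℵ₀ #F.S) (max #R (sum fun s => #(S s))))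
    ((le_max_left _ _).trans (le_max_left _ _)) ((le_max_right _ _).trans (le_max_left _ _))
  simp only [max_le_iff] at hμ
  obtain ⟨P, f, hP, hpre, hmin⟩ := hcov.exists_cover L
  obtain ⟨Y, f₀, hY, hpre₀, hmin₀⟩ := hcov.exists_cover M
  have hK := hinj f hP hpre hmin
  have hK₀ := hinj f₀ hY hpre₀ hmin₀
  obtain ⟨A, hA, hcore⟩ := hcore P f (F.lift_sum f fun j k => hpre _ k (hF j)) fun a => by
    rcases isEmpty_or_nonempty (Set.Iio a) with h | h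
    · exact F.ext_of_isEmpty _ a
    · exact F.ext_of _ a (hinj' _ hK _ (hQ a h) _ _ (F.ilt a) (LinearMap.range (F.ilt a)).mkQ
        (Submodule.inclusion_injective _) (Submodule.mkQ_surjective _)
        (LinearMap.exact_map_mkQ_range _))
  obtain ⟨P', hP', hs⟩ := h2 _ hP
  obtain ⟨i, e, hie⟩ := hs.exists_maps
  obtain ⟨P₀, hP₀, hP₀l, hext⟩ := hill hP' hμ.1.1 hμ.2.1
    (fun s => (le_sum (fun s => #(S s)) s).trans hμ.2.2) (i '' A) (mk_image_le.trans hA)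
  obtain ⟨u, v, h, hv, huv, hhv, hh⟩ := hcore (e '' P₀) (mk_image_le.trans hP₀l)
  obtain ⟨y, hy⟩ := F.lift_sum f₀ (fun j k => hpre₀ _ k (hF j)) (F.desc g)
  let d : F.Dall →ₗ[R] LinearMap.ker f₀ := (y ∘ₗ F.Dall.subtype).codRestrict _ fun x =>
    (hy x).trans ((hg.desc_eq_zero x).2 x.2)
  obtain ⟨h', hh'⟩ := hext _ hK₀
    (d ∘ₗ (h ∘ₗ e ∘ₗ P₀.subtype).codRestrict F.Dall fun x => hh _ ⟨x, x.2, rfl⟩)
  let k : P →ₗ[R] LinearMap.ker f₀ := h' ∘ₗ i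
  have hkv : ∀ x, k (v x) = d x := fun x =>
    (hh' ⟨i (v x), hP₀ ⟨_, hv x, rfl⟩⟩).trans (congrArg d (Subtype.ext (by
      change h (e (i (v x))) = x
      rw [hie, hhv])))
  let w : F.Dall →ₗ[R] LinearMap.ker f := (u ∘ₗ F.Dall.subtype - v).codRestrict _ fun x => by
    change f (u x - v x) = 0
    rw [map_sub, huv, sub_self]
  let B : Submodule R (Y × F.S) :=
    LinearMap.ker (f₀ ∘ₗ LinearMap.fst R Y F.S - F.desc g ∘ₗ LinearMap.snd R Y F.S)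
  have hB : ∀ z : Y × F.S, z ∈ B ↔ f₀ z.1 = F.desc g z.2 := fun z => sub_eq_zero
  obtain ⟨w', hw'⟩ := hinj' _ hK Y hY B F.Dall
    ((LinearMap.inr R Y F.S ∘ₗ F.Dall.subtype).codRestrict B fun x =>
      (hB _).2 ((map_zero f₀).trans ((hg.desc_eq_zero x).2 x.2).symm))
    (LinearMap.fst R Y F.S ∘ₗ B.subtype)
    (fun a b hab => Subtype.ext (congrArg (fun z : B => z.1.2) hab))
    (fun z => by
      obtain ⟨a, ha⟩ := hg.desc_surj (f₀ z)
      exact ⟨⟨(z, a), (hB _).2 ha.symm⟩, rfl⟩)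
    (fun z => by
      constructor
      · intro hz
        have hz' : z.1.1 = 0 := hz
        refine ⟨⟨z.1.2, (hg.desc_eq_zero _).1 ?_⟩, Subtype.ext (Prod.ext hz'.symm rfl)⟩
        rw [← (hB _).1 z.2, hz', map_zero]
      · rintro ⟨n, rfl⟩; rfl) w
  let z : LinearMap.ker f₀ →ₗ[R] LinearMap.ker f := w' ∘ₗ
    (LinearMap.inl R Y F.S ∘ₗ (LinearMap.ker f₀).subtype).codRestrict B fun x =>
      (hB _).2 (x.2.trans (map_zero (F.desc g)).symm)
  let s' : F.S →ₗ[R] LinearMap.ker f := w' ∘ₗ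
    (y.prod LinearMap.id).codRestrict B fun x => (hB _).2 (hy x)
  have hs' : ∀ x : F.Dall, s' x = z (d x) + w x := fun x => by
    rw [← hw']
    refine Eq.trans (congrArg w' (Subtype.ext ?_)) (map_add w' _ _)
    exact Prod.ext (add_zero _).symm (zero_add _).symm
  have hb := bij_swap (-((LinearMap.ker f).subtype ∘ₗ z)) k (hmin _ fun x => by
    change f (x + -(z (k x) : P)) = f x
    rw [map_add, map_neg, (z (k x)).2, neg_zero, add_zero])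
  let α := LinearEquiv.ofBijective _ hb
  let d' : F.S →ₗ[R] LinearMap.ker f₀ :=
    α.symm.toLinearMap ∘ₗ k ∘ₗ (u - (LinearMap.ker f).subtype ∘ₗ s')
  have hd' : ∀ x : F.Dall, d' x = d x := fun x => by
    refine α.symm_apply_eq.2 ?_
    change k (u x - s' x) = d x + k (-(z (d x) : P))
    rw [hs', ← hkv x, ← map_add, hkv x]
    congr 1
    change u x - (z (d x) + (u x - v x)) = _
    abel
  obtain ⟨σ, hσ⟩ := descend (F.desc g) hg.desc_surj (y - (LinearMap.ker f₀).subtype ∘ₗ d')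
    fun x hx => by
      change y x - d' x = 0
      rw [hd' ⟨x, (hg.desc_eq_zero x).1 hx⟩]
      exact sub_self _
  have hσ' : ∀ m, f₀ (σ m) = m := fun m => by
    obtain ⟨x, rfl⟩ := hg.desc_surj m
    rw [hσ]
    change f₀ (y x - d' x) = _
    rw [map_sub, hy, (d' x).2, sub_zero]
  have hbij := hmin₀ (σ ∘ₗ f₀) fun x => hσ' _
  exact hiso Y M ⟨(LinearEquiv.ofBijective f₀
    ⟨Function.Injective.of_comp (f := σ) hbij.1, fun m => ⟨_, hσ' m⟩⟩).toModuleIso⟩ hY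

theorem filt_main {ι : Type u} {S : ι → ModuleCat.{u} R} {C : ModuleCat.{u} R → Prop}
    (hiso : ∀ X Y : ModuleCat.{u} R, Nonempty (X ≅ Y) → C X → C Y)
    (h1 : ∀ X, IsFiltered S X → C X) (h2 : ∀ X, C X → ∃ P, IsFiltered S P ∧ IsSummand X P)
    (hcov : IsCovering C) {J : Type u} [Preorder J] [IsDirected J (· ≤ ·)] [Nonempty J]
    (F : J ⥤ ModuleCat.{u} R) (hF : ∀ j, C (F.obj j)) (c : Limits.Cocone F)
    (hc : Limits.IsColimit c) : C c.pt := by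
  have hchain := chain_ind (R := R) (fun J _ F => Nonempty J → (∀ j, C (F.X j)) →
      ∀ (M : ModuleCat.{u} R) (g : ∀ j, F.X j →ₗ[R] M), IsDL F M g → C M)
    fun J _ _ F ih _ hF M g hg => filt_step hiso h1 h2 hcov F hF
      (fun a h => ih a h (fun j => hF j) _ _ (F.isDL_Q a)) M g hg
  exact iwamura c.pt (fun N _ => C N) (fun K _ _ hK H N γ hγ _ hQ => hchain K H hK hQ N γ hγ)
    (sysOf F) (fun j => (c.ι.app j).hom) (isDL_of_isColimit F c hc) hF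

end Pool.Agent.Lib.MP_65eb6b_al.EC
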