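import Mathlib
import Pool.Agent.Lib.MP_65eb6b_al.Universe

set_option autoImplicit false

open Cardinal CategoryTheory Pool.Agent.Lib.MP_65eb6b_al

universe u

namespace Pool.Agent.Lib.MP_65eb6b_al.OldUniverse

/-- There is an inaccessible cardinal `κ` such that Enochs' conjecture fails for the rings and
modules of size less than `κ`. -/
theorem result :
    ∃ κ : Cardinal.{u + 1}, κ.IsInaccessible ∧
      ∃ (R : Type (u + 1)) (_ : Ring R) (C : ModuleCat.{u + 1} R → Prop), Countable R ∧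
        (∀ X Y : ModuleCat.{u + 1} R, Nonempty (X ≅ Y) → C X → C Y) ∧
        (∀ X : ModuleCat.{u + 1} R, C X → #X < κ) ∧
        (∀ M : ModuleCat.{u + 1} R, #M < κ →
          ∃ (X : ModuleCat.{u + 1} R) (f : X ⟶ M), IsCover C f) ∧
        ∃ (J : Type (u + 1)) (_ : PartialOrder J) (_ : IsDirected J (· ≤ ·)) (_ : Nonempty J)
          (F : J ⥤ ModuleCat.{u + 1} R) (c : Limits.Cocone F),
          Countable J ∧ (∀ j, C (F.obj j)) ∧ Nonempty (Limits.IsColimit c) ∧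
            #c.pt < κ ∧ ¬ C c.pt := by
  classical
  obtain ⟨κ, hκ, hmin⟩ := exists_least_inaccessible.{u}
  let I : Type (u + 1) := ULift.{u + 1} ℕ
  have hI : #I = ℵ₀ := by simp [I]
  let o : Bs I := (⟨0⟩, true, 0)
  have hR : #(Rg I) = ℵ₀ := mk_Rg.trans hI
  refine ⟨κ, hκ, Rg I, inferInstance, fun X => Cls o X ∧ #X < κ,
    mk_le_aleph0_iff.1 hR.le, ?_, fun X hX => hX.2, ?_, Finset (Gen I), inferInstance,
    inferInstance, inferInstance, sys I, cocone I, mk_le_aleph0_iff.1 (mk_index.trans hI).le,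
    fun j => ⟨cls_sys o j, ((mk_sys j).trans hI.le).trans_lt hκ.aleph0_lt⟩, ⟨isColimit I⟩, ?_,
    fun h => not_cls_pt o h.1⟩
  · rintro X Y ⟨e⟩ ⟨h1, h2⟩
    refine ⟨cls_iso o X Y ⟨e⟩ h1, ?_⟩
    rwa [← Cardinal.mk_congr e.toLinearEquiv.toEquiv]
  · intro M hM
    obtain ⟨X, f, ⟨h1, h2, h3⟩, h4⟩ := exists_isCover o M (by
      rintro ⟨c, hc, -, hcM⟩
      exact hmin c (hcM.trans_lt hM) hc.isInaccessible)
    refine ⟨X, f, ⟨h1, h4.trans_lt ?_⟩, fun Y g hY => h2 Y g hY.1, h3⟩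
    apply hκ.isStrongPrelimit
    rw [hI]
    exact mul_lt_of_lt hκ.aleph0_lt.le hκ.aleph0_lt (hκ.isStrongPrelimit hM)
  · refine lt_of_le_of_lt ?_ hκ.aleph0_lt
    exact (mk_le_of_surjective
      (Submodule.Quotient.mk_surjective (lid (Set.univ : Set (Gen I))))).trans hR.le

end Pool.Agent.Lib.MP_65eb6b_al.OldUniverse
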